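import Pool.Agent.TH838.SK.Count

set_option autoImplicit false

/-!
Counting, modulo a prime, the affine maps all of whose iterates move a given point off a given
hypersurface.
-/

namespace Pool.Agent.R851.SK

open Finset Pool.Agent.TH838.SK Pool.Agent.H884R2.Sko Matrix

section

variable {K : Type} [Field K]

/-- two diagonalisations of the same matrix with the same sum of the eigenvectors -/
theorem fib {d : ℕ} (G G' : Matrix (Fin d) (Fin d) K) (l l' : Fin d → K)
    (hG : IsUnit G.det) (hG' : IsUnit G'.det) (hl : Function.Injective l)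
    (hl' : Function.Injective l') (h1 : G * diagonal l * G⁻¹ = G' * diagonal l' * G'⁻¹)
    (h2 : G.mulVec 1 = G'.mulVec 1) :
    ∃ σ : Fin d → Fin d, G' = G.submatrix id σ ∧ l' = l ∘ σ := by
  classical
  set C := G⁻¹ * G' with hC
  have hGC : G * C = G' := by rw [hC, ← Matrix.mul_assoc, Matrix.mul_nonsing_inv _ hG, Matrix.one_mul]
  have hCdet : IsUnit C.det := by
    rw [hC, Matrix.det_mul]
    exact (Matrix.isUnit_nonsing_inv_det _ hG).mul hG'
  have hcomm : diagonal l * C = C * diagonal l' := by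
    calc diagonal l * C = G⁻¹ * (G * diagonal l * G⁻¹) * G' := by
          rw [hC]
          simp only [Matrix.mul_assoc]
          rw [← Matrix.mul_assoc G⁻¹ G, Matrix.nonsing_inv_mul _ hG, Matrix.one_mul]
      _ = G⁻¹ * (G' * diagonal l' * G'⁻¹) * G' := by rw [h1]
      _ = C * diagonal l' := by
          rw [hC]
          simp only [Matrix.mul_assoc]
          rw [Matrix.nonsing_inv_mul _ hG', Matrix.mul_one]
  have hent : ∀ j i, C j i ≠ 0 → l j = l' i := by
    intro j i hji
    have h3 := congrFun (congrFun hcomm j) i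
    rw [Matrix.diagonal_mul, Matrix.mul_diagonal] at h3
    have h4 : C j i * (l j - l' i) = 0 := by rw [mul_sub, mul_comm, h3, sub_self]
    exact sub_eq_zero.1 ((mul_eq_zero.1 h4).resolve_left hji)
  have hcol : ∀ i, ∃ j, C j i ≠ 0 := by
    intro i
    by_contra hcon
    push Not at hcon
    have := Matrix.det_eq_zero_of_column_eq_zero i hcon
    rw [this] at hCdet
    exact not_isUnit_zero hCdet
  choose σ hσ using hcol
  have hσl : ∀ i, l (σ i) = l' i := fun i => hent _ _ (hσ i)
  have hone : C.mulVec 1 = 1 := by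
    rw [hC, ← Matrix.mulVec_mulVec, ← h2, Matrix.mulVec_mulVec, Matrix.nonsing_inv_mul _ hG,
      Matrix.one_mulVec]
  have hoff : ∀ j i, j ≠ σ i → C j i = 0 := by
    intro j i hji
    by_contra hcon
    exact hji (hl ((hent _ _ hcon).trans (hσl i).symm))
  have hdiag : ∀ i, C (σ i) i = 1 := by
    intro i
    have h3 := congrFun hone (σ i)
    rw [Matrix.mulVec, dotProduct] at h3
    simp only [Pi.one_apply, mul_one] at h3
    rw [Finset.sum_eq_single i] at h3
    · exact h3
    · intro i' _ hne
      apply hoff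
      intro h
      exact hne (hl' ((hσl i').symm.trans ((congrArg l h.symm).trans (hσl i))))
    · intro h
      exact absurd (Finset.mem_univ _) h
  refine ⟨σ, ?_, funext fun i => (hσl i).symm⟩
  rw [← hGC]
  ext a i
  rw [Matrix.mul_apply, Finset.sum_eq_single (σ i), hdiag, mul_one]
  · rfl
  · intro j _ hj
    rw [hoff j i hj, mul_zero]
  · intro h
    exact absurd (Finset.mem_univ _) h

variable [Fintype K] [DecidableEq K]

theorem card_inj (Q : Finset K) (d : ℕ) :
    ((univ : Finset (Fin d → K)).filter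
      (fun l => Function.Injective l ∧ ∀ i, l i ∈ Q)).card = Q.card.descFactorial d := by
  classical
  rw [← Fintype.card_subtype]
  have h : Fintype.card (Fin d ↪ Q) = Q.card.descFactorial d := by
    rw [Fintype.card_embedding_eq, Fintype.card_coe, Fintype.card_fin]
  rw [← h]
  apply Fintype.card_congr
  exact
    { toFun := fun l => ⟨fun i => ⟨l.1 i, l.2.2 i⟩, fun i j hij => l.2.1 (by simpa using hij)⟩
      invFun := fun f => ⟨fun i => (f i).1, fun i j hij => f.injective (Subtype.ext hij),
        fun i => (f i).2⟩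
      left_inv := fun l => rfl
      right_inv := fun f => rfl }

/-- the number of invertible matrices -/
theorem card_inv (d : ℕ) : Fintype.card K ^ (d * d) ≤
    ((univ : Finset (Matrix (Fin d) (Fin d) K)).filter (fun G => IsUnit G.det)).card +
      d * Fintype.card K ^ (d * d - 1) := by
  classical
  set q := Fintype.card K with hq
  have hq1 : 1 ≤ q := Fintype.card_pos
  have h1 : ((univ : Finset (Matrix (Fin d) (Fin d) K)).filter (fun G => IsUnit G.det)).card =
      ∏ i : Fin d, (q ^ d - q ^ (i : ℕ)) := by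
    rw [← Matrix.card_GL_field, ← Fintype.card_subtype, ← Nat.card_eq_fintype_card]
    apply Nat.card_congr
    exact
      { toFun := fun G => Matrix.nonsingInvUnit G.1 G.2
        invFun := fun G => ⟨G.1, (Matrix.isUnit_iff_isUnit_det _).1 G.isUnit⟩
        left_inv := fun G => rfl
        right_inv := fun G => by ext; rfl }
  rw [h1]
  rcases Nat.eq_zero_or_pos d with h0 | hd
  · subst h0
    simp
  have h2 : ∏ _i : Fin d, (q ^ d - q ^ (d - 1)) ≤ ∏ i : Fin d, (q ^ d - q ^ (i : ℕ)) := by
    apply Finset.prod_le_prod'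
    intro i _
    apply Nat.sub_le_sub_left
    exact Nat.pow_le_pow_right hq1 (by omega)
  rw [Finset.prod_const, Finset.card_univ, Fintype.card_fin] at h2
  have h3 : q ^ (d * d) ≤ (q ^ d - q ^ (d - 1)) ^ d + d * q ^ (d * d - 1) := by
    obtain ⟨e, rfl⟩ : ∃ e, d = e + 1 := ⟨d - 1, by omega⟩
    rw [Nat.add_sub_cancel]
    have h4 : q ^ (e + 1) - q ^ e = q ^ e * (q - 1) := by
      rw [pow_succ, Nat.mul_sub, mul_one]
    rw [h4, mul_pow, ← pow_mul]
    obtain ⟨m, hm⟩ : ∃ m, q = m + 1 := ⟨q - 1, by omega⟩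
    have h5 : q ^ (e + 1) ≤ (q - 1) ^ (e + 1) + (e + 1) * q ^ e := by
      have hB : ∀ n : ℕ, (m + 1) ^ n ≤ m ^ n + n * (m + 1) ^ (n - 1) := by
        intro n
        induction n with
        | zero => simp
        | succ n ih =>
          rw [Nat.add_sub_cancel]
          have h6 : m ^ n ≤ (m + 1) ^ n := Nat.pow_le_pow_left (by omega) n
          rcases Nat.eq_zero_or_pos n with h0 | hn
          · subst h0; simp
          · have h7 : (m + 1) ^ n = (m + 1) ^ (n - 1) * (m + 1) := by
              rw [← pow_succ]; congr 1; omega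
            calc (m + 1) ^ (n + 1) = (m + 1) ^ n * m + (m + 1) ^ n := by ring
              _ ≤ (m ^ n + n * (m + 1) ^ (n - 1)) * m + (m + 1) ^ n := by gcongr
              _ = m ^ (n + 1) + n * ((m + 1) ^ (n - 1) * m) + (m + 1) ^ n := by ring
              _ ≤ m ^ (n + 1) + n * ((m + 1) ^ (n - 1) * (m + 1)) + (m + 1) ^ n := by
                  gcongr; omega
              _ = m ^ (n + 1) + (n + 1) * (m + 1) ^ n := by rw [← h7]; ring
      have := hB (e + 1)
      rw [Nat.add_sub_cancel, ← hm] at this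
      have h8 : m = q - 1 := by omega
      rwa [h8] at this
    calc q ^ ((e + 1) * (e + 1)) = q ^ (e * (e + 1)) * q ^ (e + 1) := by
          rw [← pow_add]; congr 1; ring
      _ ≤ q ^ (e * (e + 1)) * ((q - 1) ^ (e + 1) + (e + 1) * q ^ e) := by gcongr
      _ = q ^ (e * (e + 1)) * (q - 1) ^ (e + 1) + (e + 1) * (q ^ (e * (e + 1)) * q ^ e) := by ring
      _ = _ := by
          rw [← pow_add]
          congr 3
          have : (e + 1) * (e + 1) = e * (e + 1) + e + 1 := by ring
          omega
  exact h3.trans (Nat.add_le_add_right h2 _)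

/-- for `c ≠ 0`: the matrices `G` such that `x + G c` lies in a given set -/
theorem card_shift {d : ℕ} (c x : Fin d → K) (hc : c ≠ 0) (h : (Fin d → K) → Prop)
    [DecidablePred h] :
    ((univ : Finset (Matrix (Fin d) (Fin d) K)).filter (fun G => h (x + G.mulVec c))).card ≤
      ((univ : Finset (Fin d → K)).filter h).card * Fintype.card K ^ (d * (d - 1)) := by
  classical
  obtain ⟨i₀, hi₀⟩ := Function.ne_iff.1 hc
  rw [Pi.zero_apply] at hi₀
  have h1 : Fintype.card (Fin d → {j : Fin d // j ≠ i₀} → K) =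
      Fintype.card K ^ (d * (d - 1)) := by
    rw [Fintype.card_fun, Fintype.card_fun, Fintype.card_fin, ← pow_mul]
    congr 1
    rw [Fintype.card_subtype_compl, Fintype.card_fin, Fintype.card_subtype_eq, mul_comm]
  rw [← h1, ← Finset.card_univ (α := Fin d → {j : Fin d // j ≠ i₀} → K),
    ← Finset.card_product]
  apply Finset.card_le_card_of_injOn
    (fun G : Matrix (Fin d) (Fin d) K => (x + G.mulVec c, fun a (j : {j : Fin d // j ≠ i₀}) =>
      G a j.1))
  · intro G hG
    rw [Finset.mem_coe, Finset.mem_filter] at hG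
    rw [Finset.mem_coe, Finset.mem_product, Finset.mem_filter]
    exact ⟨⟨mem_univ _, hG.2⟩, mem_univ _⟩
  · intro G _ G' _ hGG
    simp only [Prod.mk.injEq] at hGG
    obtain ⟨h2, h3⟩ := hGG
    have h4 : ∀ a j, j ≠ i₀ → G a j = G' a j := fun a j hj => congrFun (congrFun h3 a) ⟨j, hj⟩
    ext a j
    by_cases hj : j = i₀
    · subst hj
      have h5 := congrFun (add_left_cancel h2) a
      rw [Matrix.mulVec, Matrix.mulVec, dotProduct, dotProduct,
        ← Finset.add_sum_erase _ _ (Finset.mem_univ j),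
        ← Finset.add_sum_erase univ (fun i => G' a i * c i) (Finset.mem_univ j)] at h5
      have h6 : ∑ i ∈ univ.erase j, G a i * c i = ∑ i ∈ univ.erase j, G' a i * c i := by
        apply Finset.sum_congr rfl
        intro i hi
        rw [h4 a i (Finset.ne_of_mem_erase hi)]
      rw [h6] at h5
      exact mul_right_cancel₀ hi₀ (add_right_cancel h5)
    · exact h4 a j hj

end

/-- the orbit of `x` under the affine map `y ↦ M y + b` -/
def it {R : Type} [CommRing R] {d : ℕ} (M : Matrix (Fin d) (Fin d) R) (b x : Fin d → R) (n : ℕ) :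
    Fin d → R := (fun y => M.mulVec y + b)^[n] x

theorem it_zero {R : Type} [CommRing R] {d : ℕ} (M : Matrix (Fin d) (Fin d) R) (b x : Fin d → R) :
    it M b x 0 = x := rfl

theorem it_succ {R : Type} [CommRing R] {d : ℕ} (M : Matrix (Fin d) (Fin d) R) (b x : Fin d → R)
    (n : ℕ) : it M b x (n + 1) = M.mulVec (it M b x n) + b := by
  unfold it
  rw [Function.iterate_succ_apply']

/-- the orbit in terms of eigenvectors -/
theorem it_diag {K : Type} [Field K] {d : ℕ} (G : Matrix (Fin d) (Fin d) K) (l : Fin d → K)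
    (x : Fin d → K) (hG : IsUnit G.det) (n : ℕ) :
    it (G * diagonal l * G⁻¹) ((x - G.mulVec 1) - (G * diagonal l * G⁻¹).mulVec (x - G.mulVec 1))
      x n = x + G.mulVec (l ^ n - 1) := by
  induction n with
  | zero => rw [it_zero, pow_zero, sub_self, Matrix.mulVec_zero, add_zero]
  | succ n ih =>
    rw [it_succ, ih]
    have h1 : x + G.mulVec (l ^ n - 1) = (x - G.mulVec 1) + G.mulVec (l ^ n) := by
      rw [Matrix.mulVec_sub]; abel
    rw [h1, Matrix.mulVec_add]
    have h2 : (G * diagonal l * G⁻¹).mulVec (G.mulVec (l ^ n)) = G.mulVec (l ^ (n + 1)) := by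
      rw [Matrix.mulVec_mulVec, Matrix.mul_assoc, Matrix.nonsing_inv_mul _ hG, Matrix.mul_one,
        ← Matrix.mulVec_mulVec]
      congr 1
      funext i
      rw [Matrix.mulVec_diagonal, Pi.pow_apply, Pi.pow_apply, pow_succ']
    rw [h2, Matrix.mulVec_sub G (l ^ (n + 1))]
    abel

theorem fixpt {K : Type} [Field K] {d : ℕ} (G : Matrix (Fin d) (Fin d) K) (l : Fin d → K)
    (hG : IsUnit G.det) (hl : ∀ i, l i ≠ 1) (v : Fin d → K)
    (h : (G * diagonal l * G⁻¹).mulVec v = v) : v = 0 := by
  have h1 : (diagonal l).mulVec (G⁻¹.mulVec v) = G⁻¹.mulVec v := by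
    have h2 := congrArg (fun u => G⁻¹.mulVec u) h
    simp only [Matrix.mulVec_mulVec] at h2
    rw [Matrix.mulVec_mulVec]
    rw [← h2]
    congr 1
    simp only [Matrix.mul_assoc]
    rw [← Matrix.mul_assoc G⁻¹ G, Matrix.nonsing_inv_mul _ hG, Matrix.one_mul]
  have h3 : G⁻¹.mulVec v = 0 := by
    funext i
    have h4 := congrFun h1 i
    rw [Matrix.mulVec_diagonal] at h4
    have h5 : (l i - 1) * (G⁻¹.mulVec v) i = 0 := by rw [sub_mul, h4, one_mul, sub_self]
    exact (mul_eq_zero.1 h5).resolve_left (sub_ne_zero.2 (hl i))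
  calc v = (G * G⁻¹).mulVec v := by rw [Matrix.mul_nonsing_inv _ hG, Matrix.one_mulVec]
    _ = G.mulVec (G⁻¹.mulVec v) := by rw [Matrix.mulVec_mulVec]
    _ = 0 := by rw [h3, Matrix.mulVec_zero]

/-- The number of choices of the eigenvalues -/
theorem card_lam (p : ℕ) [Fact p.Prime] (d k T : ℕ) (hk : 1 ≤ k) (hT : k * T = p - 1)
    (hp : 2 * k * d + 2 ≤ p) (Q : Finset (ZMod p)) (hQ : T ≤ Q.card + 1) :
    p ^ d ≤ (2 * k) ^ d * ((univ : Finset (Fin d → ZMod p)).filter
      (fun l => Function.Injective l ∧ ∀ i, l i ∈ Q)).card := by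
  rw [card_inj]
  have h1 := Nat.pow_sub_le_descFactorial Q.card d
  have h2 : (T - d) ^ d ≤ (Q.card + 1 - d) ^ d := Nat.pow_le_pow_left (by omega) d
  have h3 : p ≤ 2 * k * (T - d) := by
    have h4 : d ≤ T := by
      by_contra hcon
      push Not at hcon
      have : k * T ≤ k * d := Nat.mul_le_mul_left _ (by omega)
      have h5 : 2 * k * d = 2 * (k * d) := by ring
      omega
    obtain ⟨t, rfl⟩ : ∃ t, T = d + t := ⟨T - d, by omega⟩
    have h7 : d + t - d = t := by omega
    rw [h7]
    have h8 : 2 * k * d = 2 * (k * d) := by ring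
    have h9 : k * (d + t) = k * d + k * t := by ring
    have h10 : 2 * k * t = 2 * (k * t) := by ring
    omega
  calc p ^ d ≤ (2 * k * (T - d)) ^ d := Nat.pow_le_pow_left h3 _
    _ = (2 * k) ^ d * (T - d) ^ d := by rw [mul_pow]
    _ ≤ _ := Nat.mul_le_mul_left _ (h2.trans h1)

/-- The orbit has period `T` and avoids the hypersurface. -/
def GoodA {p r d : ℕ} (T : ℕ) (w : (Fin d → Fin (r + 1)) → ZMod p) (x : Fin d → ZMod p)
    (M : Matrix (Fin d) (Fin d) (ZMod p)) (b : Fin d → ZMod p) : Prop :=
  (∀ n, it M b x (n + T) = it M b x n) ∧ ∀ n, ev1 w (it M b x n) ≠ 0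

open Classical in
theorem card_goodA (p : ℕ) [Fact p.Prime] (d r k T : ℕ) (hk : k = 2 * (d * r + 1))
    (hT : k * T = p - 1) (hp : 4 * d ≤ p) (hp' : 2 * k * d + 2 ≤ p)
    (w : (Fin d → Fin (r + 1)) → ZMod p) (x : Fin d → ZMod p) (hw : ev1 w x ≠ 0) :
    p ^ (d * d + d) ≤ 4 * (2 * k) ^ d * d ^ d *
      ((univ : Finset (Matrix (Fin d) (Fin d) (ZMod p) × (Fin d → ZMod p))).filter
        (fun z => GoodA T w x z.1 z.2)).card := by
  have hprime : p.Prime := Fact.out
  have hk2 : 2 ≤ k := by omega
  have hp2 : 2 ≤ p := hprime.two_le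
  have hw0 : w ≠ 0 := by
    intro h
    apply hw
    rw [h]
    simp [ev1]
  have hTpos : 0 < T := by
    rcases Nat.eq_zero_or_pos T with h | h
    · rw [h, mul_zero] at hT
      omega
    · exact h
  have hDr : 2 * (d * r) * T ≤ p - 1 := by
    rw [← hT, hk]
    exact Nat.mul_le_mul_right _ (by omega)
  obtain ⟨Q, hQ1, hQ2⟩ := exists_powers p k T (by omega) hT
  set Q' := Q.erase 1 with hQ'
  have hQ'2 : ∀ a ∈ Q', a ^ T = 1 ∧ a ≠ 1 := fun a ha =>
    ⟨hQ2 a (Finset.mem_of_mem_erase ha), Finset.ne_of_mem_erase ha⟩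
  set L := (univ : Finset (Fin d → ZMod p)).filter
      (fun l => Function.Injective l ∧ ∀ i, l i ∈ Q') with hL
  have hLc : p ^ d ≤ (2 * k) ^ d * L.card := by
    apply card_lam p d k T (by omega) hT hp' Q'
    have := Finset.pred_card_le_card_erase (s := Q) (a := (1 : ZMod p))
    rw [hQ1] at this
    have h0 : Q'.card = (Q.erase 1).card := by rw [hQ']
    omega
  have hLp : ∀ l ∈ L, Function.Injective l ∧ (∀ i, l i ≠ 1) ∧ l ^ T = 1 := by
    intro l hl
    rw [hL, Finset.mem_filter] at hl
    refine ⟨hl.2.1, fun i => (hQ'2 _ (hl.2.2 i)).2, ?_⟩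
    funext i
    rw [Pi.pow_apply, Pi.one_apply]
    exact (hQ'2 _ (hl.2.2 i)).1
  -- invertible matrices
  set I := (univ : Finset (Matrix (Fin d) (Fin d) (ZMod p))).filter (fun G => IsUnit G.det)
    with hI
  have hIc : 3 * p ^ (d * d) ≤ 4 * I.card := by
    have h1 := card_inv (K := ZMod p) d
    rw [ZMod.card] at h1
    have h2 : 4 * (d * p ^ (d * d - 1)) ≤ p ^ (d * d) := by
      rcases Nat.eq_zero_or_pos d with h0 | hd
      · subst h0; simp
      · have h3 : p ^ (d * d) = p * p ^ (d * d - 1) := by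
          rw [← pow_succ']
          congr 1
          have : 0 < d * d := Nat.mul_pos hd hd
          omega
        rw [h3, ← mul_assoc]
        exact Nat.mul_le_mul_right _ hp
    have h4 : p ^ (d * d) ≤ I.card + d * p ^ (d * d - 1) := by
      convert h1
    omega
  set Z := ((univ : Finset (Fin d → ZMod p)).filter (fun y => ev1 w y = 0)).card with hZ
  have hZp : Z * p ≤ d * r * p ^ d := by
    have := card_zero w hw0
    rwa [ZMod.card, Fintype.card_fin] at this
  set good : (Fin d → ZMod p) → Finset (Matrix (Fin d) (Fin d) (ZMod p)) := fun l =>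
    I.filter (fun G => ∀ n, ev1 w (x + G.mulVec (l ^ n - 1)) ≠ 0) with hgood
  have hgoodc : ∀ l ∈ L, p ^ (d * d) ≤ 4 * (good l).card := by
    intro l hl
    obtain ⟨hl1, hl2, hl3⟩ := hLp l hl
    set bad := (univ : Finset (Matrix (Fin d) (Fin d) (ZMod p))).filter
      (fun G => ∃ n, ev1 w (x + G.mulVec (l ^ n - 1)) = 0) with hbad
    have h1 : I.card ≤ (good l).card + bad.card := by
      refine le_trans (Finset.card_le_card ?_) (Finset.card_union_le _ _)
      intro G hG
      rw [Finset.mem_union]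
      by_cases h : ∃ n, ev1 w (x + G.mulVec (l ^ n - 1)) = 0
      · right
        rw [hbad, Finset.mem_filter]
        exact ⟨mem_univ _, h⟩
      · left
        push Not at h
        rw [hgood]
        simp only [Finset.mem_filter]
        exact ⟨hG, h⟩
    have h2 : bad.card ≤ T * (Z * p ^ (d * (d - 1))) := by
      have hsub : bad ⊆ (range T).biUnion (fun n =>
          (univ : Finset (Matrix (Fin d) (Fin d) (ZMod p))).filter
            (fun G => ev1 w (x + G.mulVec (l ^ n - 1)) = 0)) := by
        intro G hG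
        rw [hbad, Finset.mem_filter] at hG
        obtain ⟨_, n, hn⟩ := hG
        rw [Finset.mem_biUnion]
        refine ⟨n % T, Finset.mem_range.2 (Nat.mod_lt _ hTpos), ?_⟩
        rw [Finset.mem_filter]
        refine ⟨mem_univ _, ?_⟩
        have h3 : l ^ (n % T) = l ^ n := by
          conv_rhs => rw [← Nat.div_add_mod n T, pow_add, pow_mul, hl3, one_pow, one_mul]
        rw [h3]
        exact hn
      refine (Finset.card_le_card hsub).trans (Finset.card_biUnion_le.trans ?_)
      calc ∑ n ∈ range T, ((univ : Finset (Matrix (Fin d) (Fin d) (ZMod p))).filter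
            (fun G => ev1 w (x + G.mulVec (l ^ n - 1)) = 0)).card ≤
          ∑ _n ∈ range T, (Z * p ^ (d * (d - 1))) := by
            refine Finset.sum_le_sum fun n _ => ?_
            by_cases hc : l ^ n - 1 = 0
            · have : (univ : Finset (Matrix (Fin d) (Fin d) (ZMod p))).filter
                  (fun G => ev1 w (x + G.mulVec (l ^ n - 1)) = 0) = ∅ := by
                apply Finset.filter_eq_empty_iff.2
                intro G _
                rw [hc, Matrix.mulVec_zero, add_zero]
                exact hw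
              rw [this, Finset.card_empty]
              exact Nat.zero_le _
            · have h4 := card_shift (l ^ n - 1) x hc (fun y => ev1 w y = 0)
              rw [ZMod.card] at h4
              exact h4
        _ = _ := by rw [Finset.sum_const, Finset.card_range, smul_eq_mul]
    have h3 : 2 * bad.card ≤ p ^ (d * d) := by
      have hdd : d * d = d + d * (d - 1) := by
        rcases Nat.eq_zero_or_pos d with h0 | hd
        · subst h0; rfl
        · obtain ⟨e, rfl⟩ : ∃ e, d = e + 1 := ⟨d - 1, by omega⟩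
          rw [Nat.add_sub_cancel]; ring
      have h4 : 2 * bad.card * p ≤ (p - 1) * p ^ (d * d) := by
        calc 2 * bad.card * p ≤ 2 * (T * (Z * p ^ (d * (d - 1)))) * p :=
              Nat.mul_le_mul_right _ (Nat.mul_le_mul_left _ h2)
          _ = 2 * T * p ^ (d * (d - 1)) * (Z * p) := by ring
          _ ≤ 2 * T * p ^ (d * (d - 1)) * (d * r * p ^ d) := Nat.mul_le_mul_left _ hZp
          _ = (2 * (d * r) * T) * (p ^ d * p ^ (d * (d - 1))) := by ring
          _ = (2 * (d * r) * T) * p ^ (d * d) := by rw [← pow_add, ← hdd]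
          _ ≤ (p - 1) * p ^ (d * d) := Nat.mul_le_mul_right _ hDr
      have h5 : (p - 1) * p ^ (d * d) ≤ p ^ (d * d) * p := by
        rw [mul_comm]; exact Nat.mul_le_mul_left _ (Nat.sub_le _ _)
      exact Nat.le_of_mul_le_mul_right (h4.trans h5) (by omega)
    omega
  set S : Finset ((_ : Fin d → ZMod p) × Matrix (Fin d) (Fin d) (ZMod p)) := L.sigma good
    with hS
  have hSc : L.card * p ^ (d * d) ≤ 4 * S.card := by
    rw [hS, Finset.card_sigma, Finset.mul_sum, ← smul_eq_mul L.card]
    exact Finset.card_nsmul_le_sum _ _ _ hgoodc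
  set F : ((_ : Fin d → ZMod p) × Matrix (Fin d) (Fin d) (ZMod p)) →
      Matrix (Fin d) (Fin d) (ZMod p) × (Fin d → ZMod p) := fun z =>
    (z.2 * diagonal z.1 * z.2⁻¹,
      (x - z.2.mulVec 1) - (z.2 * diagonal z.1 * z.2⁻¹).mulVec (x - z.2.mulVec 1)) with hF
  have hmemS : ∀ z ∈ S, z.1 ∈ L ∧ IsUnit z.2.det ∧
      ∀ n, ev1 w (x + z.2.mulVec (z.1 ^ n - 1)) ≠ 0 := by
    intro z hz
    rw [hS, Finset.mem_sigma] at hz
    refine ⟨hz.1, ?_⟩
    have h1 := hz.2
    rw [hgood] at h1
    simp only [Finset.mem_filter] at h1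
    refine ⟨?_, h1.2⟩
    have h2 := h1.1
    rw [hI, Finset.mem_filter] at h2
    exact h2.2
  have himg : (S.image F).card ≤
      ((univ : Finset (Matrix (Fin d) (Fin d) (ZMod p) × (Fin d → ZMod p))).filter
        (fun z => GoodA T w x z.1 z.2)).card := by
    apply Finset.card_le_card
    intro y hy
    rw [Finset.mem_image] at hy
    obtain ⟨z, hz, rfl⟩ := hy
    obtain ⟨h1, h2, h3⟩ := hmemS z hz
    obtain ⟨-, -, h4⟩ := hLp _ h1
    rw [Finset.mem_filter]
    refine ⟨mem_univ _, ?_, ?_⟩
    · intro n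
      rw [hF]
      simp only
      rw [it_diag _ _ _ h2, it_diag _ _ _ h2, pow_add, h4, mul_one]
    · intro n
      rw [hF]
      simp only
      rw [it_diag _ _ _ h2]
      exact h3 n
  have hfib : S.card ≤ d ^ d * (S.image F).card := by
    apply Finset.card_le_mul_card_image
    intro y hy
    rw [Finset.mem_image] at hy
    obtain ⟨z, hz, rfl⟩ := hy
    obtain ⟨h1, h2, -⟩ := hmemS z hz
    obtain ⟨h1a, h1b, -⟩ := hLp _ h1
    have hsub : S.filter (fun z' => F z' = F z) ⊆
        (univ : Finset (Fin d → Fin d)).image (fun σ =>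
          (⟨z.1 ∘ σ, z.2.submatrix id σ⟩ :
            (_ : Fin d → ZMod p) × Matrix (Fin d) (Fin d) (ZMod p))) := by
      intro z' hz'
      rw [Finset.mem_filter] at hz'
      obtain ⟨h3, h4, -⟩ := hmemS z' hz'.1
      obtain ⟨h3a, h3b, -⟩ := hLp _ h3
      have h5 := hz'.2
      rw [hF] at h5
      simp only [Prod.mk.injEq] at h5
      obtain ⟨h6, h7⟩ := h5
      rw [h6] at h7
      have h8 : (x - z'.2.mulVec 1) - (x - z.2.mulVec 1) = 0 := by
        apply fixpt z.2 z.1 h2 h1b
        rw [Matrix.mulVec_sub]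
        have h9 := congrArg (fun u => (x - z'.2.mulVec 1) - u + ((z.2 * diagonal z.1 *
          z.2⁻¹).mulVec (x - z.2.mulVec 1)) - ((z.2 * diagonal z.1 *
          z.2⁻¹).mulVec (x - z.2.mulVec 1))) h7
        simp only at h9
        rw [sub_sub_cancel] at h9
        rw [add_sub_cancel_right] at h9
        rw [h9]
        abel
      have h9 : z.2.mulVec 1 = z'.2.mulVec 1 := by
        have := sub_eq_zero.1 h8
        exact (sub_right_injective this).symm
      obtain ⟨σ, hσ1, hσ2⟩ := fib z.2 z'.2 z.1 z'.1 h2 h4 h1a h3a h6.symm h9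
      rw [Finset.mem_image]
      refine ⟨σ, mem_univ _, ?_⟩
      rcases z' with ⟨l', G'⟩
      simp only at hσ1 hσ2
      rw [hσ1, hσ2]
    refine (Finset.card_le_card hsub).trans (Finset.card_image_le.trans ?_)
    rw [Finset.card_univ, Fintype.card_fun, Fintype.card_fin]
  calc p ^ (d * d + d) = p ^ d * p ^ (d * d) := by rw [← pow_add, add_comm]
    _ ≤ (2 * k) ^ d * L.card * p ^ (d * d) := Nat.mul_le_mul_right _ hLc
    _ = (2 * k) ^ d * (L.card * p ^ (d * d)) := by ring
    _ ≤ (2 * k) ^ d * (4 * S.card) := Nat.mul_le_mul_left _ hSc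
    _ ≤ (2 * k) ^ d * (4 * (d ^ d * (S.image F).card)) := by gcongr
    _ = 4 * (2 * k) ^ d * d ^ d * (S.image F).card := by ring
    _ ≤ _ := Nat.mul_le_mul_left _ himg

end Pool.Agent.R851.SK
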