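import Pool.Agent.R851.SK.Cnt

set_option autoImplicit false

/-!
Counting, modulo a prime, the matrices all of whose powers move a given point off a given
homogeneous hypersurface.
-/

namespace Pool.Agent.R851.SK

open Finset Pool.Agent.TH838.SK Pool.Agent.H884R2.Sko Matrix

section

variable {K : Type} [Field K]

theorem pow_diag {d : ℕ} (G : Matrix (Fin d) (Fin d) K) (l : Fin d → K) (hG : IsUnit G.det)
    (n : ℕ) : (G * diagonal l * G⁻¹) ^ n = G * diagonal (l ^ n) * G⁻¹ := by
  induction n with
  | zero => rw [pow_zero, pow_zero, Matrix.diagonal_one', Matrix.mul_one,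
      Matrix.mul_nonsing_inv _ hG]
  | succ n ih =>
    rw [pow_succ, ih]
    simp only [Matrix.mul_assoc]
    rw [← Matrix.mul_assoc G⁻¹ G, Matrix.nonsing_inv_mul _ hG, Matrix.one_mul,
      ← Matrix.mul_assoc (diagonal (l ^ n)), Matrix.diagonal_mul_diagonal]
    congr 3
    funext i
    rw [Pi.pow_apply, Pi.pow_apply, pow_succ]

/-- an invertible matrix mapping the vector of ones to `x` -/
theorem exists_trans {d : ℕ} (x : Fin d → K) (hx : x ≠ 0) :
    ∃ U : Matrix (Fin d) (Fin d) K, IsUnit U.det ∧ U.mulVec 1 = x := by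
  classical
  obtain ⟨j, hj⟩ := Function.ne_iff.1 hx
  rw [Pi.zero_apply] at hj
  have hdet : ∀ y : Fin d → K, (updateCol (1 : Matrix (Fin d) (Fin d) K) j y).det = y j := by
    intro y
    rw [← Matrix.cramer_apply, Matrix.cramer_one]
    rfl
  have hmul : ∀ y : Fin d → K,
      (updateCol (1 : Matrix (Fin d) (Fin d) K) j y).mulVec (Pi.single j 1) = y := by
    intro y
    funext a
    rw [Matrix.mulVec_single_one]
    simp [Matrix.col]
  have h1 : IsUnit (updateCol (1 : Matrix (Fin d) (Fin d) K) j 1).det := by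
    rw [hdet]
    exact isUnit_one
  refine ⟨updateCol 1 j x * (updateCol 1 j 1)⁻¹, ?_, ?_⟩
  · rw [Matrix.det_mul, hdet]
    exact (isUnit_iff_ne_zero.2 hj).mul (Matrix.isUnit_nonsing_inv_det _ h1)
  · rw [← Matrix.mulVec_mulVec]
    have h2 : (updateCol (1 : Matrix (Fin d) (Fin d) K) j 1)⁻¹.mulVec 1 = Pi.single j 1 := by
      calc (updateCol (1 : Matrix (Fin d) (Fin d) K) j 1)⁻¹.mulVec 1 =
          (updateCol (1 : Matrix (Fin d) (Fin d) K) j 1)⁻¹.mulVec
            ((updateCol (1 : Matrix (Fin d) (Fin d) K) j 1).mulVec (Pi.single j 1)) := by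
            rw [hmul]
        _ = _ := by rw [Matrix.mulVec_mulVec, Matrix.nonsing_inv_mul _ h1, Matrix.one_mulVec]
    rw [h2, hmul]

variable [Fintype K] [DecidableEq K]

open Classical in
/-- the number of invertible matrices with a given sum of the columns -/
theorem card_fix {d : ℕ} (x : Fin d → K) (hx : x ≠ 0) :
    ((univ : Finset (Matrix (Fin d) (Fin d) K)).filter (fun G => IsUnit G.det)).card ≤
      ((univ : Finset (Matrix (Fin d) (Fin d) K)).filter
        (fun G => IsUnit G.det ∧ G.mulVec 1 = x)).card * Fintype.card K ^ d := by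
  have h1 : ((univ : Finset (Matrix (Fin d) (Fin d) K)).filter (fun G => IsUnit G.det)).card ≤
      ((univ : Finset (Matrix (Fin d) (Fin d) K)).filter
        (fun G => IsUnit G.det ∧ G.mulVec 1 = x)).card *
      (((univ : Finset (Matrix (Fin d) (Fin d) K)).filter (fun G => IsUnit G.det)).image
        (fun G => G.mulVec 1)).card := by
    apply Finset.card_le_mul_card_image
    intro y hy
    rw [Finset.mem_image] at hy
    obtain ⟨G₀, hG₀, rfl⟩ := hy
    rw [Finset.mem_filter] at hG₀
    obtain ⟨U, hU, hUx⟩ := exists_trans x hx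
    have hy0 : G₀.mulVec 1 ≠ 0 := by
      intro h
      apply hx
      have h2 := congrArg (fun u => G₀⁻¹.mulVec u) h
      simp only [Matrix.mulVec_mulVec, Matrix.nonsing_inv_mul _ hG₀.2, Matrix.one_mulVec,
        Matrix.mulVec_zero] at h2
      rw [← hUx, h2, Matrix.mulVec_zero]
    obtain ⟨V, hV, hVy⟩ := exists_trans _ hy0
    apply Finset.card_le_card_of_injOn (fun G => U * (V⁻¹ * G))
    · intro G hG
      rw [Finset.mem_coe, Finset.mem_filter, Finset.mem_filter] at hG
      rw [Finset.mem_coe, Finset.mem_filter]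
      refine ⟨mem_univ _, ?_, ?_⟩
      · rw [Matrix.det_mul, Matrix.det_mul]
        exact hU.mul ((Matrix.isUnit_nonsing_inv_det _ hV).mul hG.1.2)
      · rw [← Matrix.mulVec_mulVec, ← Matrix.mulVec_mulVec, hG.2, ← hVy, Matrix.mulVec_mulVec 1 V⁻¹ V,
          Matrix.nonsing_inv_mul _ hV, Matrix.one_mulVec, hUx]
    · intro G _ G' _ h
      simp only at h
      have h2 := congrArg (fun N => V * (U⁻¹ * N)) h
      simp only [← Matrix.mul_assoc U⁻¹, Matrix.nonsing_inv_mul _ hU, Matrix.one_mul] at h2
      simpa only [← Matrix.mul_assoc V, Matrix.mul_nonsing_inv _ hV, Matrix.one_mul] using h2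
  refine h1.trans (Nat.mul_le_mul_left _ ?_)
  refine (Finset.card_le_univ _).trans ?_
  rw [Fintype.card_fun, Fintype.card_fin]

/-- for `c` not constant: the matrices `G` with a given sum of the columns such that `G c` lies in
a given set -/
theorem card_shiftB {d : ℕ} (c x : Fin d → K) (i₀ i₁ : Fin d) (hc : c i₀ ≠ c i₁)
    (h : (Fin d → K) → Prop) [DecidablePred h] :
    ((univ : Finset (Matrix (Fin d) (Fin d) K)).filter
      (fun G => G.mulVec 1 = x ∧ h (G.mulVec c))).card ≤
      ((univ : Finset (Fin d → K)).filter h).card * Fintype.card K ^ (d * (d - 2)) := by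
  classical
  have hne : i₀ ≠ i₁ := fun h => hc (by rw [h])
  have h1 : Fintype.card (Fin d → {j : Fin d // ¬ (j = i₀ ∨ j = i₁)} → K) =
      Fintype.card K ^ (d * (d - 2)) := by
    rw [Fintype.card_fun, Fintype.card_fun, Fintype.card_fin, ← pow_mul]
    congr 1
    rw [Fintype.card_subtype_compl, Fintype.card_fin, mul_comm]
    congr 2
    rw [Fintype.card_subtype]
    have h2 : (univ.filter fun j : Fin d => j = i₀ ∨ j = i₁) = {i₀, i₁} := by
      ext j; simp
    rw [h2, Finset.card_pair hne]
  rw [← h1, ← Finset.card_univ (α := Fin d → {j : Fin d // ¬ (j = i₀ ∨ j = i₁)} → K),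
    ← Finset.card_product]
  apply Finset.card_le_card_of_injOn
    (fun G : Matrix (Fin d) (Fin d) K => (G.mulVec c,
      fun a (j : {j : Fin d // ¬ (j = i₀ ∨ j = i₁)}) => G a j.1))
  · intro G hG
    rw [Finset.mem_coe, Finset.mem_filter] at hG
    rw [Finset.mem_coe, Finset.mem_product, Finset.mem_filter]
    exact ⟨⟨mem_univ _, hG.2.2⟩, mem_univ _⟩
  · intro G hG G' hG' hGG
    rw [Finset.mem_coe, Finset.mem_filter] at hG hG'
    simp only [Prod.mk.injEq] at hGG
    obtain ⟨h2, h3⟩ := hGG
    have h4 : ∀ a j, j ≠ i₀ → j ≠ i₁ → G a j = G' a j := fun a j hj hj' =>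
      congrFun (congrFun h3 a) ⟨j, by tauto⟩
    have hs : ∀ (N : Matrix (Fin d) (Fin d) K) (u : Fin d → K) a, N.mulVec u a =
        N a i₀ * u i₀ + (N a i₁ * u i₁ + ∑ i ∈ (univ.erase i₀).erase i₁, N a i * u i) := by
      intro N u a
      rw [Matrix.mulVec, dotProduct, ← Finset.add_sum_erase _ _ (Finset.mem_univ i₀),
        ← Finset.add_sum_erase (univ.erase i₀) _
          (Finset.mem_erase.2 ⟨hne.symm, Finset.mem_univ i₁⟩)]
    have hr : ∀ (u : Fin d → K) a, ∑ i ∈ (univ.erase i₀).erase i₁, G a i * u i =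
        ∑ i ∈ (univ.erase i₀).erase i₁, G' a i * u i := by
      intro u a
      apply Finset.sum_congr rfl
      intro i hi
      rw [Finset.mem_erase, Finset.mem_erase] at hi
      rw [h4 a i hi.2.1 hi.1]
    have h5 : ∀ a, G a i₀ = G' a i₀ ∧ G a i₁ = G' a i₁ := by
      intro a
      have e1 := congrFun h2 a
      have e2 := congrFun (hG.2.1.trans hG'.2.1.symm) a
      rw [hs, hs, hr] at e1 e2
      simp only [Pi.one_apply, mul_one] at e2
      have e3 : (G a i₀ - G' a i₀) * c i₀ + (G a i₁ - G' a i₁) * c i₁ = 0 := by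
        linear_combination e1
      have e4 : (G a i₀ - G' a i₀) + (G a i₁ - G' a i₁) = 0 := by
        linear_combination e2
      have e5 : (G a i₀ - G' a i₀) * (c i₀ - c i₁) = 0 := by
        linear_combination e3 - c i₁ * e4
      have e6 := (mul_eq_zero.1 e5).resolve_right (sub_ne_zero.2 hc)
      refine ⟨sub_eq_zero.1 e6, ?_⟩
      rw [e6, zero_add] at e4
      exact sub_eq_zero.1 e4
    ext a j
    by_cases hj : j = i₀
    · rw [hj]; exact (h5 a).1
    · by_cases hj' : j = i₁
      · rw [hj']; exact (h5 a).2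
      · exact h4 a j hj hj'

end

/-- The polynomial with the coefficients `w` is homogeneous of degree `r`. -/
def Hom {R : Type} [Zero R] {d r : ℕ} (w : (Fin d → Fin (r + 1)) → R) : Prop :=
  ∀ e, w e ≠ 0 → ∑ i, (e i : ℕ) = r

theorem ev1_smul {R : Type} [CommRing R] {d r : ℕ} (w : (Fin d → Fin (r + 1)) → R) (hw : Hom w)
    (a : R) (x : Fin d → R) : ev1 w (a • x) = a ^ r * ev1 w x := by
  unfold ev1
  rw [Finset.mul_sum]
  refine Finset.sum_congr rfl fun e _ => ?_
  by_cases h : w e = 0
  · rw [h]; ring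
  · simp only [Pi.smul_apply, smul_eq_mul, mul_pow]
    rw [Finset.prod_mul_distrib, Finset.prod_pow_eq_pow_sum, hw e h]
    ring

/-- `M ^ T = 1` and the powers of `M` move `x` off the hypersurface. -/
def GoodB {p r d : ℕ} (T : ℕ) (w : (Fin d → Fin (r + 1)) → ZMod p) (x : Fin d → ZMod p)
    (M : Matrix (Fin d) (Fin d) (ZMod p)) : Prop :=
  M ^ T = 1 ∧ ∀ n, ev1 w ((M ^ n).mulVec x) ≠ 0

open Classical in
theorem card_goodB (p : ℕ) [Fact p.Prime] (d r k T : ℕ) (hk : k = 2 * (d * r + 1))
    (hT : k * T = p - 1) (hp : 4 * d ≤ p) (hp' : 2 * k * d + 2 ≤ p)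
    (w : (Fin d → Fin (r + 1)) → ZMod p) (hhom : Hom w) (x : Fin d → ZMod p) (hx : x ≠ 0)
    (hw : ev1 w x ≠ 0) :
    p ^ (d * d) ≤ 4 * (2 * k) ^ d * d ^ d *
      ((univ : Finset (Matrix (Fin d) (Fin d) (ZMod p))).filter (fun M => GoodB T w x M)).card := by
  have hprime : p.Prime := Fact.out
  have hk2 : 2 ≤ k := by omega
  have hp2 : 2 ≤ p := hprime.two_le
  have hd : 1 ≤ d := by
    rcases Nat.eq_zero_or_pos d with h0 | h0
    · subst h0
      exact absurd (Subsingleton.elim x 0) hx
    · exact h0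
  have hw0 : w ≠ 0 := by
    intro h
    apply hw
    rw [h]
    simp [ev1]
  have hTpos : 0 < T := by
    rcases Nat.eq_zero_or_pos T with h | h
    · rw [h, mul_zero] at hT
      omega
    · exact h
  have hDr : 2 * (d * r) * T ≤ p - 1 := by
    rw [← hT, hk]
    exact Nat.mul_le_mul_right _ (by omega)
  obtain ⟨Q, hQ1, hQ2⟩ := exists_powers p k T (by omega) hT
  set L := (univ : Finset (Fin d → ZMod p)).filter
      (fun l => Function.Injective l ∧ ∀ i, l i ∈ Q) with hL
  have hLc : p ^ d ≤ (2 * k) ^ d * L.card :=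
    card_lam p d k T (by omega) hT hp' Q (by omega)
  have hLp : ∀ l ∈ L, Function.Injective l ∧ l ^ T = 1 := by
    intro l hl
    rw [hL, Finset.mem_filter] at hl
    refine ⟨hl.2.1, ?_⟩
    funext i
    rw [Pi.pow_apply, Pi.one_apply]
    exact hQ2 _ (hl.2.2 i)
  have hdd : d * d = d + d * (d - 1) := by
    obtain ⟨e, rfl⟩ : ∃ e, d = e + 1 := ⟨d - 1, by omega⟩
    rw [Nat.add_sub_cancel]; ring
  -- invertible matrices with the sum of columns `x`
  set I := (univ : Finset (Matrix (Fin d) (Fin d) (ZMod p))).filter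
    (fun G => IsUnit G.det ∧ G.mulVec 1 = x) with hI
  have hIc : 3 * p ^ (d * (d - 1)) ≤ 4 * I.card := by
    have h1 := card_inv (K := ZMod p) d
    rw [ZMod.card] at h1
    have h2 : 4 * (d * p ^ (d * d - 1)) ≤ p ^ (d * d) := by
      have h3 : p ^ (d * d) = p * p ^ (d * d - 1) := by
        rw [← pow_succ']
        congr 1
        have : 0 < d * d := Nat.mul_pos hd hd
        omega
      rw [h3, ← mul_assoc]
      exact Nat.mul_le_mul_right _ hp
    have h4 : p ^ (d * d) ≤ ((univ : Finset (Matrix (Fin d) (Fin d) (ZMod p))).filter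
        (fun G => IsUnit G.det)).card + d * p ^ (d * d - 1) := by
      convert h1
    have h5 := card_fix x hx
    rw [ZMod.card] at h5
    have h6 : 3 * p ^ (d * (d - 1)) * p ^ d ≤ 4 * I.card * p ^ d := by
      have h7 : 3 * p ^ (d * (d - 1)) * p ^ d = 3 * p ^ (d * d) := by
        rw [mul_assoc, ← pow_add, add_comm, ← hdd]
      rw [h7, mul_assoc]
      have h8 : ((univ : Finset (Matrix (Fin d) (Fin d) (ZMod p))).filter
        (fun G => IsUnit G.det)).card ≤ I.card * p ^ d := by
        convert h5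
      omega
    exact Nat.le_of_mul_le_mul_right h6 (pow_pos (by omega) _)
  set Z := ((univ : Finset (Fin d → ZMod p)).filter (fun y => ev1 w y = 0)).card with hZ
  have hZp : Z * p ≤ d * r * p ^ d := by
    have := card_zero w hw0
    rwa [ZMod.card, Fintype.card_fin] at this
  set good : (Fin d → ZMod p) → Finset (Matrix (Fin d) (Fin d) (ZMod p)) := fun l =>
    I.filter (fun G => ∀ n, ev1 w (G.mulVec (l ^ n)) ≠ 0) with hgood
  have hgoodc : ∀ l ∈ L, p ^ (d * (d - 1)) ≤ 4 * (good l).card := by
    intro l hl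
    obtain ⟨hl1, hl3⟩ := hLp l hl
    set bad := (univ : Finset (Matrix (Fin d) (Fin d) (ZMod p))).filter
      (fun G => G.mulVec 1 = x ∧ ∃ n, ev1 w (G.mulVec (l ^ n)) = 0) with hbad
    have h1 : I.card ≤ (good l).card + bad.card := by
      refine le_trans (Finset.card_le_card ?_) (Finset.card_union_le _ _)
      intro G hG
      rw [Finset.mem_union]
      by_cases h : ∃ n, ev1 w (G.mulVec (l ^ n)) = 0
      · right
        rw [hbad, Finset.mem_filter]
        rw [hI, Finset.mem_filter] at hG
        exact ⟨mem_univ _, hG.2.2, h⟩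
      · left
        push Not at h
        rw [hgood]
        simp only [Finset.mem_filter]
        exact ⟨hG, h⟩
    have h2 : bad.card * p ≤ T * (d * r * p ^ (d * (d - 1))) := by
      have hsub : bad ⊆ (range T).biUnion (fun n =>
          (univ : Finset (Matrix (Fin d) (Fin d) (ZMod p))).filter
            (fun G => G.mulVec 1 = x ∧ ev1 w (G.mulVec (l ^ n)) = 0)) := by
        intro G hG
        rw [hbad, Finset.mem_filter] at hG
        obtain ⟨_, hG1, n, hn⟩ := hG
        rw [Finset.mem_biUnion]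
        refine ⟨n % T, Finset.mem_range.2 (Nat.mod_lt _ hTpos), ?_⟩
        rw [Finset.mem_filter]
        refine ⟨mem_univ _, hG1, ?_⟩
        have h3 : l ^ (n % T) = l ^ n := by
          conv_rhs => rw [← Nat.div_add_mod n T, pow_add, pow_mul, hl3, one_pow, one_mul]
        rw [h3]
        exact hn
      refine (Nat.mul_le_mul_right _
        ((Finset.card_le_card hsub).trans Finset.card_biUnion_le)).trans ?_
      rw [Finset.sum_mul]
      calc ∑ n ∈ range T, ((univ : Finset (Matrix (Fin d) (Fin d) (ZMod p))).filter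
            (fun G => G.mulVec 1 = x ∧ ev1 w (G.mulVec (l ^ n)) = 0)).card * p ≤
          ∑ _n ∈ range T, (d * r * p ^ (d * (d - 1))) := by
            refine Finset.sum_le_sum fun n _ => ?_
            by_cases hc : ∃ i₀ i₁, (l ^ n) i₀ ≠ (l ^ n) i₁
            · obtain ⟨i₀, i₁, hc⟩ := hc
              have h4 := card_shiftB (l ^ n) x i₀ i₁ hc (fun y => ev1 w y = 0)
              rw [ZMod.card] at h4
              have hd2 : 2 ≤ d := by
                have h5 : i₀ ≠ i₁ := fun h => hc (by rw [h])
                have h6 : (i₀ : ℕ) ≠ i₁ := fun h => h5 (Fin.ext h)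
                have := i₀.2
                have := i₁.2
                omega
              have h7 : d * (d - 1) = d + d * (d - 2) := by
                obtain ⟨e, rfl⟩ : ∃ e, d = e + 2 := ⟨d - 2, by omega⟩
                rw [Nat.add_sub_cancel]
                have : e + 2 - 1 = e + 1 := rfl
                rw [this]; ring
              calc _ ≤ Z * p ^ (d * (d - 2)) * p := Nat.mul_le_mul_right _ h4
                _ = Z * p * p ^ (d * (d - 2)) := by ring
                _ ≤ d * r * p ^ d * p ^ (d * (d - 2)) := Nat.mul_le_mul_right _ hZp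
                _ = d * r * p ^ (d * (d - 1)) := by rw [mul_assoc, ← pow_add, h7]
            · push Not at hc
              have : (univ : Finset (Matrix (Fin d) (Fin d) (ZMod p))).filter
                  (fun G => G.mulVec 1 = x ∧ ev1 w (G.mulVec (l ^ n)) = 0) = ∅ := by
                apply Finset.filter_eq_empty_iff.2
                rintro G _ ⟨hG1, hG2⟩
                have h5 : l ^ n = (l ^ n) ⟨0, hd⟩ • (1 : Fin d → ZMod p) := by
                  funext i
                  rw [Pi.smul_apply, Pi.one_apply, smul_eq_mul, mul_one]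
                  exact hc i _
                rw [h5, Matrix.mulVec_smul, hG1, ev1_smul w hhom] at hG2
                have h6 : (l ^ n) ⟨0, hd⟩ ≠ 0 := by
                  rw [Pi.pow_apply]
                  apply pow_ne_zero
                  intro h7
                  have h8 := congrFun hl3 ⟨0, hd⟩
                  rw [Pi.pow_apply, h7, zero_pow hTpos.ne', Pi.one_apply] at h8
                  exact zero_ne_one h8
                exact hw ((mul_eq_zero.1 hG2).resolve_left (pow_ne_zero _ h6))
              rw [this, Finset.card_empty, zero_mul]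
              exact Nat.zero_le _
        _ = _ := by rw [Finset.sum_const, Finset.card_range, smul_eq_mul]
    have h3 : 2 * bad.card ≤ p ^ (d * (d - 1)) := by
      have h4 : 2 * bad.card * p ≤ (p - 1) * p ^ (d * (d - 1)) := by
        calc 2 * bad.card * p = 2 * (bad.card * p) := by ring
          _ ≤ 2 * (T * (d * r * p ^ (d * (d - 1)))) := Nat.mul_le_mul_left _ h2
          _ = (2 * (d * r) * T) * p ^ (d * (d - 1)) := by ring
          _ ≤ (p - 1) * p ^ (d * (d - 1)) := Nat.mul_le_mul_right _ hDr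
      have h5 : (p - 1) * p ^ (d * (d - 1)) ≤ p ^ (d * (d - 1)) * p := by
        rw [mul_comm]; exact Nat.mul_le_mul_left _ (Nat.sub_le _ _)
      exact Nat.le_of_mul_le_mul_right (h4.trans h5) (by omega)
    omega
  set S : Finset ((_ : Fin d → ZMod p) × Matrix (Fin d) (Fin d) (ZMod p)) := L.sigma good
    with hS
  have hSc : L.card * p ^ (d * (d - 1)) ≤ 4 * S.card := by
    rw [hS, Finset.card_sigma, Finset.mul_sum, ← smul_eq_mul L.card]
    exact Finset.card_nsmul_le_sum _ _ _ hgoodc
  set F : ((_ : Fin d → ZMod p) × Matrix (Fin d) (Fin d) (ZMod p)) →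
      Matrix (Fin d) (Fin d) (ZMod p) := fun z => z.2 * diagonal z.1 * z.2⁻¹ with hF
  have hmemS : ∀ z ∈ S, z.1 ∈ L ∧ IsUnit z.2.det ∧ z.2.mulVec 1 = x ∧
      ∀ n, ev1 w (z.2.mulVec (z.1 ^ n)) ≠ 0 := by
    intro z hz
    rw [hS, Finset.mem_sigma] at hz
    refine ⟨hz.1, ?_⟩
    have h1 := hz.2
    rw [hgood] at h1
    simp only [Finset.mem_filter] at h1
    have h2 := h1.1
    rw [hI, Finset.mem_filter] at h2
    exact ⟨h2.2.1, h2.2.2, h1.2⟩
  have himg : (S.image F).card ≤
      ((univ : Finset (Matrix (Fin d) (Fin d) (ZMod p))).filter (fun M => GoodB T w x M)).card := by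
    apply Finset.card_le_card
    intro y hy
    rw [Finset.mem_image] at hy
    obtain ⟨z, hz, rfl⟩ := hy
    obtain ⟨h1, h2, h2', h3⟩ := hmemS z hz
    obtain ⟨-, h4⟩ := hLp _ h1
    rw [Finset.mem_filter]
    refine ⟨mem_univ _, ?_, ?_⟩
    · rw [hF]
      simp only
      rw [pow_diag _ _ h2, h4, Matrix.diagonal_one', Matrix.mul_one, Matrix.mul_nonsing_inv _ h2]
    · intro n
      rw [hF]
      simp only
      have h5 : ((z.2 * diagonal z.1 * z.2⁻¹) ^ n).mulVec x = z.2.mulVec (z.1 ^ n) := by
        rw [pow_diag _ _ h2]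
        conv_lhs => rw [← h2']
        rw [Matrix.mulVec_mulVec, Matrix.mul_assoc, Matrix.nonsing_inv_mul _ h2, Matrix.mul_one,
          ← Matrix.mulVec_mulVec]
        congr 1
        funext i
        rw [Matrix.mulVec_diagonal, Pi.one_apply, mul_one]
      rw [h5]
      exact h3 n
  have hfib : S.card ≤ d ^ d * (S.image F).card := by
    apply Finset.card_le_mul_card_image
    intro y hy
    rw [Finset.mem_image] at hy
    obtain ⟨z, hz, rfl⟩ := hy
    obtain ⟨h1, h2, h2', -⟩ := hmemS z hz
    obtain ⟨h1a, -⟩ := hLp _ h1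
    have hsub : S.filter (fun z' => F z' = F z) ⊆
        (univ : Finset (Fin d → Fin d)).image (fun σ =>
          (⟨z.1 ∘ σ, z.2.submatrix id σ⟩ :
            (_ : Fin d → ZMod p) × Matrix (Fin d) (Fin d) (ZMod p))) := by
      intro z' hz'
      rw [Finset.mem_filter] at hz'
      obtain ⟨h3, h4, h4', -⟩ := hmemS z' hz'.1
      obtain ⟨h3a, -⟩ := hLp _ h3
      have h5 := hz'.2
      rw [hF] at h5
      simp only at h5
      obtain ⟨σ, hσ1, hσ2⟩ := fib z.2 z'.2 z.1 z'.1 h2 h4 h1a h3a h5.symm (h2'.trans h4'.symm)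
      rw [Finset.mem_image]
      refine ⟨σ, mem_univ _, ?_⟩
      rcases z' with ⟨l', G'⟩
      simp only at hσ1 hσ2
      rw [hσ1, hσ2]
    refine (Finset.card_le_card hsub).trans (Finset.card_image_le.trans ?_)
    rw [Finset.card_univ, Fintype.card_fun, Fintype.card_fin]
  calc p ^ (d * d) = p ^ d * p ^ (d * (d - 1)) := by rw [← pow_add, ← hdd]
    _ ≤ (2 * k) ^ d * L.card * p ^ (d * (d - 1)) := Nat.mul_le_mul_right _ hLc
    _ = (2 * k) ^ d * (L.card * p ^ (d * (d - 1))) := by ring
    _ ≤ (2 * k) ^ d * (4 * S.card) := Nat.mul_le_mul_left _ hSc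
    _ ≤ (2 * k) ^ d * (4 * (d ^ d * (S.image F).card)) := by gcongr
    _ = 4 * (2 * k) ^ d * d ^ d * (S.image F).card := by ring
    _ ≤ _ := Nat.mul_le_mul_left _ himg

end Pool.Agent.R851.SK
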