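import Pool.Agent.R851.SK.CntB

set_option autoImplicit false

/-!
Counting, modulo a prime, the matrices with equal row sums all of whose powers move a given row
vector off a given homogeneous hypersurface.
-/

namespace Pool.Agent.R851.SK

open Finset Pool.Agent.TH838.SK Pool.Agent.H884R2.Sko Matrix

/-- The orbit has period `T` and stays in the set `h`. -/
def GoodG {p d : ℕ} (T : ℕ) (h : (Fin d → ZMod p) → Prop) (x : Fin d → ZMod p)
    (M : Matrix (Fin d) (Fin d) (ZMod p)) (b : Fin d → ZMod p) : Prop :=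
  (∀ n, it M b x (n + T) = it M b x n) ∧ ∀ n, h (it M b x n)

open Classical in
theorem card_goodG (p : ℕ) [Fact p.Prime] (d B k T : ℕ) (hk : k = 2 * (B + 1))
    (hT : k * T = p - 1) (hp : 4 * d ≤ p) (hp' : 2 * k * d + 2 ≤ p)
    (h : (Fin d → ZMod p) → Prop)
    (hZp : ((univ : Finset (Fin d → ZMod p)).filter (fun y => ¬ h y)).card * p ≤ B * p ^ d)
    (x : Fin d → ZMod p) (hx : h x) :
    p ^ (d * d + d) ≤ 4 * (2 * k) ^ d * d ^ d *
      ((univ : Finset (Matrix (Fin d) (Fin d) (ZMod p) × (Fin d → ZMod p))).filter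
        (fun z => GoodG T h x z.1 z.2)).card := by
  have hprime : p.Prime := Fact.out
  have hk2 : 2 ≤ k := by omega
  have hp2 : 2 ≤ p := hprime.two_le
  have hTpos : 0 < T := by
    rcases Nat.eq_zero_or_pos T with h | h
    · rw [h, mul_zero] at hT
      omega
    · exact h
  have hDr : 2 * B * T ≤ p - 1 := by
    rw [← hT, hk]
    exact Nat.mul_le_mul_right _ (by omega)
  obtain ⟨Q, hQ1, hQ2⟩ := exists_powers p k T (by omega) hT
  set Q' := Q.erase 1 with hQ'
  have hQ'2 : ∀ a ∈ Q', a ^ T = 1 ∧ a ≠ 1 := fun a ha =>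
    ⟨hQ2 a (Finset.mem_of_mem_erase ha), Finset.ne_of_mem_erase ha⟩
  set L := (univ : Finset (Fin d → ZMod p)).filter
      (fun l => Function.Injective l ∧ ∀ i, l i ∈ Q') with hL
  have hLc : p ^ d ≤ (2 * k) ^ d * L.card := by
    apply card_lam p d k T (by omega) hT hp' Q'
    have := Finset.pred_card_le_card_erase (s := Q) (a := (1 : ZMod p))
    rw [hQ1] at this
    have h0 : Q'.card = (Q.erase 1).card := by rw [hQ']
    omega
  have hLp : ∀ l ∈ L, Function.Injective l ∧ (∀ i, l i ≠ 1) ∧ l ^ T = 1 := by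
    intro l hl
    rw [hL, Finset.mem_filter] at hl
    refine ⟨hl.2.1, fun i => (hQ'2 _ (hl.2.2 i)).2, ?_⟩
    funext i
    rw [Pi.pow_apply, Pi.one_apply]
    exact (hQ'2 _ (hl.2.2 i)).1
  -- invertible matrices
  set I := (univ : Finset (Matrix (Fin d) (Fin d) (ZMod p))).filter (fun G => IsUnit G.det)
    with hI
  have hIc : 3 * p ^ (d * d) ≤ 4 * I.card := by
    have h1 := card_inv (K := ZMod p) d
    rw [ZMod.card] at h1
    have h2 : 4 * (d * p ^ (d * d - 1)) ≤ p ^ (d * d) := by
      rcases Nat.eq_zero_or_pos d with h0 | hd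
      · subst h0; simp
      · have h3 : p ^ (d * d) = p * p ^ (d * d - 1) := by
          rw [← pow_succ']
          congr 1
          have : 0 < d * d := Nat.mul_pos hd hd
          omega
        rw [h3, ← mul_assoc]
        exact Nat.mul_le_mul_right _ hp
    have h4 : p ^ (d * d) ≤ I.card + d * p ^ (d * d - 1) := by
      convert h1
    omega
  set Z := ((univ : Finset (Fin d → ZMod p)).filter (fun y => ¬ h y)).card with hZ
  set good : (Fin d → ZMod p) → Finset (Matrix (Fin d) (Fin d) (ZMod p)) := fun l =>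
    I.filter (fun G => ∀ n, h (x + G.mulVec (l ^ n - 1))) with hgood
  have hgoodc : ∀ l ∈ L, p ^ (d * d) ≤ 4 * (good l).card := by
    intro l hl
    obtain ⟨hl1, hl2, hl3⟩ := hLp l hl
    set bad := (univ : Finset (Matrix (Fin d) (Fin d) (ZMod p))).filter
      (fun G => ∃ n, ¬ h (x + G.mulVec (l ^ n - 1))) with hbad
    have h1 : I.card ≤ (good l).card + bad.card := by
      refine le_trans (Finset.card_le_card ?_) (Finset.card_union_le _ _)
      intro G hG
      rw [Finset.mem_union]
      by_cases hex : ∃ n, ¬ h (x + G.mulVec (l ^ n - 1))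
      · right
        rw [hbad, Finset.mem_filter]
        exact ⟨mem_univ _, hex⟩
      · left
        push Not at hex
        rw [hgood]
        simp only [Finset.mem_filter]
        exact ⟨hG, hex⟩
    have h2 : bad.card ≤ T * (Z * p ^ (d * (d - 1))) := by
      have hsub : bad ⊆ (range T).biUnion (fun n =>
          (univ : Finset (Matrix (Fin d) (Fin d) (ZMod p))).filter
            (fun G => ¬ h (x + G.mulVec (l ^ n - 1)))) := by
        intro G hG
        rw [hbad, Finset.mem_filter] at hG
        obtain ⟨_, n, hn⟩ := hG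
        rw [Finset.mem_biUnion]
        refine ⟨n % T, Finset.mem_range.2 (Nat.mod_lt _ hTpos), ?_⟩
        rw [Finset.mem_filter]
        refine ⟨mem_univ _, ?_⟩
        have h3 : l ^ (n % T) = l ^ n := by
          conv_rhs => rw [← Nat.div_add_mod n T, pow_add, pow_mul, hl3, one_pow, one_mul]
        rw [h3]
        exact hn
      refine (Finset.card_le_card hsub).trans (Finset.card_biUnion_le.trans ?_)
      calc ∑ n ∈ range T, ((univ : Finset (Matrix (Fin d) (Fin d) (ZMod p))).filter
            (fun G => ¬ h (x + G.mulVec (l ^ n - 1)))).card ≤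
          ∑ _n ∈ range T, (Z * p ^ (d * (d - 1))) := by
            refine Finset.sum_le_sum fun n _ => ?_
            by_cases hc : l ^ n - 1 = 0
            · have : (univ : Finset (Matrix (Fin d) (Fin d) (ZMod p))).filter
                  (fun G => ¬ h (x + G.mulVec (l ^ n - 1))) = ∅ := by
                apply Finset.filter_eq_empty_iff.2
                intro G _
                rw [hc, Matrix.mulVec_zero, add_zero]
                exact not_not.2 hx
              rw [this, Finset.card_empty]
              exact Nat.zero_le _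
            · have h4 := card_shift (l ^ n - 1) x hc (fun y => ¬ h y)
              rw [ZMod.card] at h4
              exact h4
        _ = _ := by rw [Finset.sum_const, Finset.card_range, smul_eq_mul]
    have h3 : 2 * bad.card ≤ p ^ (d * d) := by
      have hdd : d * d = d + d * (d - 1) := by
        rcases Nat.eq_zero_or_pos d with h0 | hd
        · subst h0; rfl
        · obtain ⟨e, rfl⟩ : ∃ e, d = e + 1 := ⟨d - 1, by omega⟩
          rw [Nat.add_sub_cancel]; ring
      have h4 : 2 * bad.card * p ≤ (p - 1) * p ^ (d * d) := by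
        calc 2 * bad.card * p ≤ 2 * (T * (Z * p ^ (d * (d - 1)))) * p :=
              Nat.mul_le_mul_right _ (Nat.mul_le_mul_left _ h2)
          _ = 2 * T * p ^ (d * (d - 1)) * (Z * p) := by ring
          _ ≤ 2 * T * p ^ (d * (d - 1)) * (B * p ^ d) := Nat.mul_le_mul_left _ hZp
          _ = (2 * B * T) * (p ^ d * p ^ (d * (d - 1))) := by ring
          _ = (2 * B * T) * p ^ (d * d) := by rw [← pow_add, ← hdd]
          _ ≤ (p - 1) * p ^ (d * d) := Nat.mul_le_mul_right _ hDr
      have h5 : (p - 1) * p ^ (d * d) ≤ p ^ (d * d) * p := by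
        rw [mul_comm]; exact Nat.mul_le_mul_left _ (Nat.sub_le _ _)
      exact Nat.le_of_mul_le_mul_right (h4.trans h5) (by omega)
    omega
  set S : Finset ((_ : Fin d → ZMod p) × Matrix (Fin d) (Fin d) (ZMod p)) := L.sigma good
    with hS
  have hSc : L.card * p ^ (d * d) ≤ 4 * S.card := by
    rw [hS, Finset.card_sigma, Finset.mul_sum, ← smul_eq_mul L.card]
    exact Finset.card_nsmul_le_sum _ _ _ hgoodc
  set F : ((_ : Fin d → ZMod p) × Matrix (Fin d) (Fin d) (ZMod p)) →
      Matrix (Fin d) (Fin d) (ZMod p) × (Fin d → ZMod p) := fun z =>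
    (z.2 * diagonal z.1 * z.2⁻¹,
      (x - z.2.mulVec 1) - (z.2 * diagonal z.1 * z.2⁻¹).mulVec (x - z.2.mulVec 1)) with hF
  have hmemS : ∀ z ∈ S, z.1 ∈ L ∧ IsUnit z.2.det ∧
      ∀ n, h (x + z.2.mulVec (z.1 ^ n - 1)) := by
    intro z hz
    rw [hS, Finset.mem_sigma] at hz
    refine ⟨hz.1, ?_⟩
    have h1 := hz.2
    rw [hgood] at h1
    simp only [Finset.mem_filter] at h1
    refine ⟨?_, h1.2⟩
    have h2 := h1.1
    rw [hI, Finset.mem_filter] at h2
    exact h2.2
  have himg : (S.image F).card ≤
      ((univ : Finset (Matrix (Fin d) (Fin d) (ZMod p) × (Fin d → ZMod p))).filter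
        (fun z => GoodG T h x z.1 z.2)).card := by
    apply Finset.card_le_card
    intro y hy
    rw [Finset.mem_image] at hy
    obtain ⟨z, hz, rfl⟩ := hy
    obtain ⟨h1, h2, h3⟩ := hmemS z hz
    obtain ⟨-, -, h4⟩ := hLp _ h1
    rw [Finset.mem_filter]
    refine ⟨mem_univ _, ?_, ?_⟩
    · intro n
      rw [hF]
      simp only
      rw [it_diag _ _ _ h2, it_diag _ _ _ h2, pow_add, h4, mul_one]
    · intro n
      rw [hF]
      simp only
      rw [it_diag _ _ _ h2]
      exact h3 n
  have hfib : S.card ≤ d ^ d * (S.image F).card := by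
    apply Finset.card_le_mul_card_image
    intro y hy
    rw [Finset.mem_image] at hy
    obtain ⟨z, hz, rfl⟩ := hy
    obtain ⟨h1, h2, -⟩ := hmemS z hz
    obtain ⟨h1a, h1b, -⟩ := hLp _ h1
    have hsub : S.filter (fun z' => F z' = F z) ⊆
        (univ : Finset (Fin d → Fin d)).image (fun σ =>
          (⟨z.1 ∘ σ, z.2.submatrix id σ⟩ :
            (_ : Fin d → ZMod p) × Matrix (Fin d) (Fin d) (ZMod p))) := by
      intro z' hz'
      rw [Finset.mem_filter] at hz'
      obtain ⟨h3, h4, -⟩ := hmemS z' hz'.1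
      obtain ⟨h3a, h3b, -⟩ := hLp _ h3
      have h5 := hz'.2
      rw [hF] at h5
      simp only [Prod.mk.injEq] at h5
      obtain ⟨h6, h7⟩ := h5
      rw [h6] at h7
      have h8 : (x - z'.2.mulVec 1) - (x - z.2.mulVec 1) = 0 := by
        apply fixpt z.2 z.1 h2 h1b
        rw [Matrix.mulVec_sub]
        have h9 := congrArg (fun u => (x - z'.2.mulVec 1) - u + ((z.2 * diagonal z.1 *
          z.2⁻¹).mulVec (x - z.2.mulVec 1)) - ((z.2 * diagonal z.1 *
          z.2⁻¹).mulVec (x - z.2.mulVec 1))) h7
        simp only at h9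
        rw [sub_sub_cancel] at h9
        rw [add_sub_cancel_right] at h9
        rw [h9]
        abel
      have h9 : z.2.mulVec 1 = z'.2.mulVec 1 := by
        have := sub_eq_zero.1 h8
        exact (sub_right_injective this).symm
      obtain ⟨σ, hσ1, hσ2⟩ := fib z.2 z'.2 z.1 z'.1 h2 h4 h1a h3a h6.symm h9
      rw [Finset.mem_image]
      refine ⟨σ, mem_univ _, ?_⟩
      rcases z' with ⟨l', G'⟩
      simp only at hσ1 hσ2
      rw [hσ1, hσ2]
    refine (Finset.card_le_card hsub).trans (Finset.card_image_le.trans ?_)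
    rw [Finset.card_univ, Fintype.card_fun, Fintype.card_fin]
  calc p ^ (d * d + d) = p ^ d * p ^ (d * d) := by rw [← pow_add, add_comm]
    _ ≤ (2 * k) ^ d * L.card * p ^ (d * d) := Nat.mul_le_mul_right _ hLc
    _ = (2 * k) ^ d * (L.card * p ^ (d * d)) := by ring
    _ ≤ (2 * k) ^ d * (4 * S.card) := Nat.mul_le_mul_left _ hSc
    _ ≤ (2 * k) ^ d * (4 * (d ^ d * (S.image F).card)) := by gcongr
    _ = 4 * (2 * k) ^ d * d ^ d * (S.image F).card := by ring
    _ ≤ _ := Nat.mul_le_mul_left _ himg

end Pool.Agent.R851.SK
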