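import Pool.Agent.R851.SK.CntC

set_option autoImplicit false

/-!
Counting, modulo a prime, the matrices with equal row sums all of whose powers move a given row
vector off a given homogeneous hypersurface.
-/

namespace Pool.Agent.R851.SK

open Finset Pool.Agent.TH838.SK Pool.Agent.H884R2.Sko Matrix

section

variable {R : Type} [CommRing R] {d : ℕ}

/-- the square matrix whose first `d` columns consist of the entries `v (i, j)`, and whose row sums
are all equal to the last entry of `v` -/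
def tm (v : (Fin (d + 1) × Fin d) ⊕ Unit → R) : Matrix (Fin (d + 1)) (Fin (d + 1)) R :=
  fun i => Fin.snoc (α := fun _ => R) (fun j => v (Sum.inl (i, j)))
    (v (Sum.inr ()) - ∑ j, v (Sum.inl (i, j)))

/-- the point of the hyperplane with the sum of coordinates `1` -/
def ext1 (u : Fin d → R) : Fin (d + 1) → R := Fin.snoc (α := fun _ => R) u (1 - ∑ i, u i)

/-- the data of the matrix corresponding to an affine map -/
def mkv (M : Matrix (Fin d) (Fin d) R) (b : Fin d → R) (N : R) :
    (Fin (d + 1) × Fin d) ⊕ Unit → R :=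
  Sum.elim (fun q => Fin.snoc (α := fun _ => R) (fun i => N * (M q.2 i + b q.2)) (N * b q.2) q.1)
    (fun _ => N)

theorem tm_castSucc (v : (Fin (d + 1) × Fin d) ⊕ Unit → R) (i : Fin (d + 1)) (j : Fin d) :
    tm v i j.castSucc = v (Sum.inl (i, j)) := by
  simp [tm]

theorem tm_last (v : (Fin (d + 1) × Fin d) ⊕ Unit → R) (i : Fin (d + 1)) :
    tm v i (Fin.last d) = v (Sum.inr ()) - ∑ j, v (Sum.inl (i, j)) := by
  simp [tm]

theorem ext1_castSucc (u : Fin d → R) (i : Fin d) : ext1 u i.castSucc = u i := by simp [ext1]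

theorem ext1_last (u : Fin d → R) : ext1 u (Fin.last d) = 1 - ∑ i, u i := by simp [ext1]

theorem sum_ext1 (u : Fin d → R) : ∑ i, ext1 u i = 1 := by
  rw [Fin.sum_univ_castSucc]
  simp only [ext1_castSucc, ext1_last]
  ring

theorem mkv_castSucc (M : Matrix (Fin d) (Fin d) R) (b : Fin d → R) (N : R) (i j : Fin d) :
    mkv M b N (Sum.inl (i.castSucc, j)) = N * (M j i + b j) := by simp [mkv]

theorem mkv_last (M : Matrix (Fin d) (Fin d) R) (b : Fin d → R) (N : R) (j : Fin d) :
    mkv M b N (Sum.inl (Fin.last d, j)) = N * b j := by simp [mkv]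

theorem mkv_inr (M : Matrix (Fin d) (Fin d) R) (b : Fin d → R) (N : R) :
    mkv M b N (Sum.inr ()) = N := by simp [mkv]

theorem vecMul_ext1 (M : Matrix (Fin d) (Fin d) R) (b : Fin d → R) (N : R) (u : Fin d → R) :
    Matrix.vecMul (ext1 u) (tm (mkv M b N)) = N • ext1 (M.mulVec u + b) := by
  have h1 : ∀ j : Fin d, ∑ i, ext1 u i * mkv M b N (Sum.inl (i, j)) =
      N * (M.mulVec u + b) j := by
    intro j
    rw [Fin.sum_univ_castSucc]
    simp only [ext1_castSucc, ext1_last, mkv_castSucc, mkv_last, Pi.add_apply, Matrix.mulVec,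
      dotProduct]
    have h2 : ∑ i, u i * (N * (M j i + b j)) = N * ∑ i, M j i * u i + (∑ i, u i) * (N * b j) := by
      rw [Finset.mul_sum, Finset.sum_mul, ← Finset.sum_add_distrib]
      refine Finset.sum_congr rfl fun i _ => ?_
      ring
    rw [h2]
    ring
  funext j
  rw [Matrix.vecMul, dotProduct]
  refine Fin.lastCases ?_ (fun j => ?_) j
  · simp only [tm_last, mkv_inr, Pi.smul_apply, smul_eq_mul, ext1_last]
    have h2 : ∑ i, ext1 u i * (N - ∑ j, mkv M b N (Sum.inl (i, j))) =
        N * ∑ i, ext1 u i - ∑ j, ∑ i, ext1 u i * mkv M b N (Sum.inl (i, j)) := by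
      rw [Finset.sum_comm, Finset.mul_sum, ← Finset.sum_sub_distrib]
      refine Finset.sum_congr rfl fun i _ => ?_
      rw [← Finset.mul_sum]
      ring
    rw [h2, sum_ext1]
    simp only [h1]
    rw [← Finset.mul_sum]
    ring
  · simp only [tm_castSucc, Pi.smul_apply, smul_eq_mul, ext1_castSucc]
    exact h1 j

theorem vecMul_pow (M : Matrix (Fin d) (Fin d) R) (b : Fin d → R) (N c : R) (u : Fin d → R)
    (n : ℕ) : Matrix.vecMul (c • ext1 u) (tm (mkv M b N) ^ n) = (N ^ n * c) • ext1 (it M b u n) := by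
  induction n with
  | zero => rw [pow_zero, Matrix.vecMul_one, pow_zero, one_mul, it_zero]
  | succ n ih =>
    rw [pow_succ, ← Matrix.vecMul_vecMul, ih, Matrix.smul_vecMul, vecMul_ext1, it_succ, smul_smul]
    congr 1
    ring

end

section

variable {K : Type} [Field K] {d : ℕ}

theorem mkv_inj (M M' : Matrix (Fin d) (Fin d) K) (b b' : Fin d → K) (N N' : K) (hN : N ≠ 0)
    (h : mkv M b N = mkv M' b' N') : M = M' ∧ b = b' ∧ N = N' := by
  have h1 : N = N' := by
    have := congrFun h (Sum.inr ())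
    rwa [mkv_inr, mkv_inr] at this
  subst h1
  have h2 : b = b' := by
    funext j
    have := congrFun h (Sum.inl (Fin.last d, j))
    rw [mkv_last, mkv_last] at this
    exact mul_left_cancel₀ hN this
  subst h2
  refine ⟨?_, rfl, rfl⟩
  ext j i
  have := congrFun h (Sum.inl (i.castSucc, j))
  rw [mkv_castSucc, mkv_castSucc] at this
  exact add_right_cancel (mul_left_cancel₀ hN this)

theorem eq_smul_ext1 (x : Fin (d + 1) → K) (hσ : ∑ i, x i ≠ 0) :
    x = (∑ i, x i) • ext1 (fun i : Fin d => (∑ i, x i)⁻¹ * x i.castSucc) := by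
  funext j
  refine Fin.lastCases ?_ (fun j => ?_) j
  · rw [Pi.smul_apply, smul_eq_mul, ext1_last, ← Finset.mul_sum, mul_sub, mul_one, ← mul_assoc,
      mul_inv_cancel₀ hσ, one_mul, Fin.sum_univ_castSucc]
    ring
  · rw [Pi.smul_apply, smul_eq_mul, ext1_castSucc, ← mul_assoc, mul_inv_cancel₀ hσ, one_mul]

variable [Fintype K] [DecidableEq K]

/-- zeros of a form on the hyperplane with the sum of coordinates `1` -/
theorem card_zero_ext1 {r : ℕ} (w : (Fin (d + 1) → Fin (r + 1)) → K) (hhom : Hom w) (hw : w ≠ 0) :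
    ((univ : Finset (Fin d → K)).filter (fun u => ev1 w (ext1 u) = 0)).card * Fintype.card K ≤
      2 * ((d + 1) * r) * Fintype.card K ^ d := by
  classical
  set q := Fintype.card K with hq
  have hq2 : 2 ≤ q := Fintype.one_lt_card
  set Z' := ((univ : Finset (Fin d → K)).filter (fun u => ev1 w (ext1 u) = 0)).card with hZ'
  have h1 : Z' * (q - 1) ≤ ((univ : Finset (Fin (d + 1) → K)).filter
      (fun y => ev1 w y = 0)).card := by
    have e1 : (univ.erase (0 : K)).card = q - 1 := by
      rw [Finset.card_erase_of_mem (Finset.mem_univ _), Finset.card_univ]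
    rw [← e1, hZ', ← Finset.card_product]
    apply Finset.card_le_card_of_injOn (fun z : (Fin d → K) × K => z.2 • ext1 z.1)
    · intro z hz
      rw [Finset.mem_coe, Finset.mem_product, Finset.mem_filter] at hz
      rw [Finset.mem_coe, Finset.mem_filter]
      refine ⟨mem_univ _, ?_⟩
      rw [ev1_smul w hhom, hz.1.2, mul_zero]
    · intro z hz z' hz' h
      rw [Finset.mem_coe, Finset.mem_product, Finset.mem_erase] at hz hz'
      simp only at h
      have h2 : z.2 = z'.2 := by
        have h3 := congrArg (fun y : Fin (d + 1) → K => ∑ i, y i) h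
        simp only [Pi.smul_apply, smul_eq_mul, ← Finset.mul_sum, sum_ext1, mul_one] at h3
        exact h3
      apply Prod.ext
      · funext i
        have h3 := congrFun h i.castSucc
        rw [Pi.smul_apply, Pi.smul_apply, smul_eq_mul, smul_eq_mul, ext1_castSucc, ext1_castSucc,
          ← h2] at h3
        exact mul_left_cancel₀ hz.2.1 h3
      · exact h2
  have h2 := card_zero_fin w hw
  have h3 : Z' * (q - 1) * q ≤ (d + 1) * r * q ^ d * q := by
    calc Z' * (q - 1) * q ≤ _ := Nat.mul_le_mul_right _ h1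
      _ ≤ (d + 1) * r * q ^ (d + 1) := h2
      _ = _ := by rw [pow_succ]; ring
  have h4 : Z' * (q - 1) ≤ (d + 1) * r * q ^ d := Nat.le_of_mul_le_mul_right h3 (by omega)
  calc Z' * q ≤ Z' * (2 * (q - 1)) := Nat.mul_le_mul_left _ (by omega)
    _ = 2 * (Z' * (q - 1)) := by ring
    _ ≤ 2 * ((d + 1) * r * q ^ d) := Nat.mul_le_mul_left _ h4
    _ = _ := by ring

end

/-- The orbit of the row vector `x` has period `p - 1` and avoids the hypersurface. -/
def GoodC {p r d : ℕ} (w : (Fin (d + 1) → Fin (r + 1)) → ZMod p) (x : Fin (d + 1) → ZMod p)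
    (v : (Fin (d + 1) × Fin d) ⊕ Unit → ZMod p) : Prop :=
  (∀ n, Matrix.vecMul x (tm v ^ (n + (p - 1))) = Matrix.vecMul x (tm v ^ n)) ∧
    ∀ n, ev1 w (Matrix.vecMul x (tm v ^ n)) ≠ 0

open Classical in
theorem card_goodC (p : ℕ) [Fact p.Prime] (d r k T : ℕ) (hk : k = 2 * (2 * ((d + 1) * r) + 1))
    (hT : k * T = p - 1) (hp : 4 * d ≤ p) (hp' : 2 * k * d + 2 ≤ p)
    (w : (Fin (d + 1) → Fin (r + 1)) → ZMod p) (hhom : Hom w) (x : Fin (d + 1) → ZMod p)
    (hσ : ∑ i, x i ≠ 0) (hw : ev1 w x ≠ 0) :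
    p ^ ((d + 1) * d + 1) ≤ 8 * (2 * k) ^ d * d ^ d *
      ((univ : Finset ((Fin (d + 1) × Fin d) ⊕ Unit → ZMod p)).filter
        (fun v => GoodC w x v)).card := by
  have hprime : p.Prime := Fact.out
  have hp2 : 2 ≤ p := hprime.two_le
  have hw0 : w ≠ 0 := by
    intro h
    apply hw
    rw [h]
    simp [ev1]
  set σ := ∑ i, x i with hσdef
  set u₀ : Fin d → ZMod p := fun i => σ⁻¹ * x i.castSucc with hu₀
  have hx : x = σ • ext1 u₀ := eq_smul_ext1 x hσ
  have hZ := card_zero_ext1 w hhom hw0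
  rw [ZMod.card] at hZ
  have h0 : ev1 w (ext1 u₀) ≠ 0 := by
    intro h
    apply hw
    rw [hx, ev1_smul w hhom, h, mul_zero]
  have h1 := card_goodG p d (2 * ((d + 1) * r)) k T hk hT hp hp' (fun u => ev1 w (ext1 u) ≠ 0)
    (by
      refine le_trans (le_of_eq ?_) hZ
      congr 2
      ext u
      simp) u₀ h0
  set Gd := (univ : Finset (Matrix (Fin d) (Fin d) (ZMod p) × (Fin d → ZMod p))).filter
        (fun z => GoodG T (fun u => ev1 w (ext1 u) ≠ 0) u₀ z.1 z.2) with hGd
  have h2 : Gd.card * (p - 1) ≤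
      ((univ : Finset ((Fin (d + 1) × Fin d) ⊕ Unit → ZMod p)).filter
        (fun v => GoodC w x v)).card := by
    have e1 : (univ.erase (0 : ZMod p)).card = p - 1 := by
      rw [Finset.card_erase_of_mem (Finset.mem_univ _), Finset.card_univ, ZMod.card]
    rw [← e1, ← Finset.card_product]
    apply Finset.card_le_card_of_injOn
      (fun z : (Matrix (Fin d) (Fin d) (ZMod p) × (Fin d → ZMod p)) × ZMod p =>
        mkv z.1.1 z.1.2 z.2)
    · rintro ⟨⟨M, b⟩, N⟩ hz
      rw [Finset.mem_coe, Finset.mem_product, hGd, Finset.mem_filter, Finset.mem_erase] at hz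
      simp only at hz
      obtain ⟨⟨-, hper, hgood⟩, hN, -⟩ := hz
      rw [Finset.mem_coe, Finset.mem_filter]
      have hNp : N ^ (p - 1) = 1 := ZMod.pow_card_sub_one_eq_one hN
      have hper' : ∀ m n, it M b u₀ (n + m * T) = it M b u₀ n := by
        intro m
        induction m with
        | zero => intro n; rw [zero_mul, add_zero]
        | succ m ih =>
          intro n
          rw [Nat.succ_mul, ← add_assoc, hper, ih]
      refine ⟨mem_univ _, ?_, ?_⟩
      · intro n
        rw [hx, vecMul_pow, vecMul_pow, pow_add, hNp, mul_one, ← hT, hper']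
      · intro n
        rw [hx, vecMul_pow, ev1_smul w hhom]
        exact mul_ne_zero (pow_ne_zero _ (mul_ne_zero (pow_ne_zero _ hN) hσ)) (hgood n)
    · rintro ⟨⟨M, b⟩, N⟩ hz ⟨⟨M', b'⟩, N'⟩ hz' h
      rw [Finset.mem_coe, Finset.mem_product, Finset.mem_erase] at hz
      obtain ⟨rfl, rfl, rfl⟩ := mkv_inj M M' b b' N N' hz.2.1 h
      rfl
  have hdd : (d + 1) * d + 1 = d * d + d + 1 := by ring
  calc p ^ ((d + 1) * d + 1) = p ^ (d * d + d) * p := by rw [hdd, pow_succ]
    _ ≤ p ^ (d * d + d) * (2 * (p - 1)) := Nat.mul_le_mul_left _ (by omega)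
    _ ≤ 4 * (2 * k) ^ d * d ^ d * Gd.card * (2 * (p - 1)) := Nat.mul_le_mul_right _ h1
    _ = 8 * (2 * k) ^ d * d ^ d * (Gd.card * (p - 1)) := by ring
    _ ≤ _ := Nat.mul_le_mul_left _ h2

end Pool.Agent.R851.SK
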