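import Pool.Agent.R851.SK.CntD

set_option autoImplicit false

/-!
Counting, modulo a prime, the stochastic matrices with a given common denominator for which the
distribution avoids a given hypersurface at all times.
-/

namespace Pool.Agent.R851.SK

open Finset Pool.Agent.TH838.SK Pool.Agent.H884R2.Sko Matrix

/-- The homogenised value of the polynomial with coefficients `w`: `s^R g(y / s)`, where `s` is the
sum of the coordinates of `y`, and `R = (d + 1) r`. -/
def hval {R : Type} [CommRing R] {d r : ℕ} (w : (Fin (d + 1) → Fin (r + 1)) → R)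
    (y : Fin (d + 1) → R) : R :=
  ∑ e, w e * ((∏ i, y i ^ (e i : ℕ)) * (∑ i, y i) ^ ((d + 1) * r - ∑ i, (e i : ℕ)))

theorem sum_le {d r : ℕ} (e : Fin (d + 1) → Fin (r + 1)) : ∑ i, (e i : ℕ) ≤ (d + 1) * r := by
  calc ∑ i, (e i : ℕ) ≤ ∑ _i : Fin (d + 1), r := Finset.sum_le_sum fun i _ => by
        have := (e i).2
        omega
    _ = (d + 1) * r := by simp

theorem hval_smul_ext1 {R : Type} [CommRing R] {d r : ℕ} (w : (Fin (d + 1) → Fin (r + 1)) → R)
    (c : R) (u : Fin d → R) : hval w (c • ext1 u) = c ^ ((d + 1) * r) * ev1 w (ext1 u) := by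
  have h1 : ∑ i, (c • ext1 u) i = c := by
    simp only [Pi.smul_apply, smul_eq_mul, ← Finset.mul_sum, sum_ext1, mul_one]
  unfold hval ev1
  rw [Finset.mul_sum]
  refine Finset.sum_congr rfl fun e _ => ?_
  rw [h1]
  have h2 : ∏ i, (c • ext1 u) i ^ (e i : ℕ) = c ^ (∑ i, (e i : ℕ)) * ∏ i, ext1 u i ^ (e i : ℕ) := by
    simp only [Pi.smul_apply, smul_eq_mul, mul_pow]
    rw [Finset.prod_mul_distrib, Finset.prod_pow_eq_pow_sum]
  rw [h2]
  have h3 : c ^ ((d + 1) * r) = c ^ (∑ i, (e i : ℕ)) * c ^ ((d + 1) * r - ∑ i, (e i : ℕ)) := by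
    rw [← pow_add, Nat.add_sub_cancel' (sum_le e)]
  rw [h3]
  ring

section

variable {K : Type} [Field K] [Fintype K] [DecidableEq K] {d : ℕ}

/-- zeros of a polynomial on the hyperplane with the sum of coordinates `1` -/
theorem card_zero_ext {r : ℕ} (w : (Fin (d + 1) → Fin (r + 1)) → K) (u₀ : Fin d → K)
    (hw : ev1 w (ext1 u₀) ≠ 0) :
    ((univ : Finset (Fin d → K)).filter (fun u => ev1 w (ext1 u) = 0)).card * Fintype.card K ≤
      (d + 1) * r * Fintype.card K ^ d := by
  set P : MvPolynomial (Fin d) K := ∑ e : Fin (d + 1) → Fin (r + 1), MvPolynomial.C (w e) *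
    ((∏ i : Fin d, MvPolynomial.X i ^ (e i.castSucc : ℕ)) *
      (1 - ∑ i, MvPolynomial.X i) ^ (e (Fin.last d) : ℕ)) with hP
  have hev : ∀ y, MvPolynomial.eval y P = ev1 w (ext1 y) := by
    intro y
    rw [hP, map_sum]
    unfold ev1
    refine Finset.sum_congr rfl fun e _ => ?_
    rw [Fin.prod_univ_castSucc]
    simp only [ext1_castSucc, ext1_last, map_mul, MvPolynomial.eval_C, map_pow, map_sub, map_one,
      map_sum, MvPolynomial.eval_X, map_prod]
  have hP0 : P ≠ 0 := by
    intro h
    apply hw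
    rw [← hev, h, map_zero]
  have hdeg : P.totalDegree ≤ (d + 1) * r := by
    rw [hP]
    apply MvPolynomial.totalDegree_finsetSum_le
    intro e _
    refine (MvPolynomial.totalDegree_mul _ _).trans ?_
    rw [MvPolynomial.totalDegree_C, zero_add]
    refine (MvPolynomial.totalDegree_mul _ _).trans ?_
    have h1 : (∏ i : Fin d, (MvPolynomial.X i : MvPolynomial (Fin d) K) ^
        (e i.castSucc : ℕ)).totalDegree ≤ ∑ i : Fin d, (e i.castSucc : ℕ) := by
      refine (MvPolynomial.totalDegree_finset_prod _ _).trans (Finset.sum_le_sum fun i _ => ?_)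
      refine (MvPolynomial.totalDegree_pow _ _).trans ?_
      rw [MvPolynomial.totalDegree_X, mul_one]
    have h2 : ((1 - ∑ i, MvPolynomial.X i : MvPolynomial (Fin d) K) ^
        (e (Fin.last d) : ℕ)).totalDegree ≤ (e (Fin.last d) : ℕ) := by
      refine (MvPolynomial.totalDegree_pow _ _).trans ?_
      have h3 : (1 - ∑ i, MvPolynomial.X i : MvPolynomial (Fin d) K).totalDegree ≤ 1 := by
        refine (MvPolynomial.totalDegree_sub _ _).trans ?_
        rw [MvPolynomial.totalDegree_one]
        apply max_le (by omega)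
        apply MvPolynomial.totalDegree_finsetSum_le
        intro i _
        rw [MvPolynomial.totalDegree_X]
      calc _ ≤ (e (Fin.last d) : ℕ) * 1 := Nat.mul_le_mul_left _ h3
        _ = _ := mul_one _
    calc _ ≤ ∑ i : Fin d, (e i.castSucc : ℕ) + (e (Fin.last d) : ℕ) := Nat.add_le_add h1 h2
      _ = ∑ i, (e i : ℕ) := by rw [Fin.sum_univ_castSucc]
      _ ≤ _ := sum_le e
  have h1 := MvPolynomial.schwartz_zippel_totalDegree hP0 (univ : Finset K)
  have hq : 0 < Fintype.card K := Fintype.card_pos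
  have e1 : ({f ∈ Fintype.piFinset (fun _ : Fin d => (univ : Finset K)) |
      MvPolynomial.eval f P = 0}) =
      (univ : Finset (Fin d → K)).filter (fun y => ev1 w (ext1 y) = 0) := by
    ext y
    simp [hev]
  rw [e1, Finset.card_univ, div_le_div_iff₀ (by positivity) (by positivity)] at h1
  have h2 : ((univ : Finset (Fin d → K)).filter (fun y => ev1 w (ext1 y) = 0)).card *
      Fintype.card K ≤ P.totalDegree * Fintype.card K ^ d := by
    exact_mod_cast h1
  exact h2.trans (Nat.mul_le_mul_right _ hdeg)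

end

/-- the data of the matrix with the first columns `a` and the row sums `N` -/
def dat {R : Type} {d : ℕ} (a : Fin (d + 1) × Fin d → R) (N : R) :
    (Fin (d + 1) × Fin d) ⊕ Unit → R := Sum.elim a fun _ => N

/-- The orbit of the row vector `x` has period `p - 1` and avoids the hypersurface. -/
def GoodE {p r d : ℕ} (w : (Fin (d + 1) → Fin (r + 1)) → ZMod p) (x : Fin (d + 1) → ZMod p)
    (N : ZMod p) (a : Fin (d + 1) × Fin d → ZMod p) : Prop :=
  (∀ n, Matrix.vecMul x (tm (dat a N) ^ (n + (p - 1))) = Matrix.vecMul x (tm (dat a N) ^ n)) ∧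
    ∀ n, hval w (Matrix.vecMul x (tm (dat a N) ^ n)) ≠ 0

open Classical in
theorem card_goodE (p : ℕ) [Fact p.Prime] (d r k T : ℕ) (hk : k = 2 * ((d + 1) * r + 1))
    (hT : k * T = p - 1) (hp : 4 * d ≤ p) (hp' : 2 * k * d + 2 ≤ p)
    (w : (Fin (d + 1) → Fin (r + 1)) → ZMod p) (x : Fin (d + 1) → ZMod p)
    (hσ : ∑ i, x i ≠ 0) (hw : hval w x ≠ 0) (N : ZMod p) (hN : N ≠ 0) :
    p ^ ((d + 1) * d) ≤ 4 * (2 * k) ^ d * d ^ d *
      ((univ : Finset (Fin (d + 1) × Fin d → ZMod p)).filter
        (fun a => GoodE w x N a)).card := by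
  set σ := ∑ i, x i with hσdef
  set u₀ : Fin d → ZMod p := fun i => σ⁻¹ * x i.castSucc with hu₀
  have hx : x = σ • ext1 u₀ := eq_smul_ext1 x hσ
  have h0 : ev1 w (ext1 u₀) ≠ 0 := by
    intro h
    apply hw
    rw [hx, hval_smul_ext1, h, mul_zero]
  have hZ := card_zero_ext w u₀ h0
  rw [ZMod.card] at hZ
  have h1 := card_goodG p d ((d + 1) * r) k T hk hT hp hp' (fun u => ev1 w (ext1 u) ≠ 0)
    (by
      refine le_trans (le_of_eq ?_) hZ
      congr 2
      ext u
      simp) u₀ h0
  set Gd := (univ : Finset (Matrix (Fin d) (Fin d) (ZMod p) × (Fin d → ZMod p))).filter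
        (fun z => GoodG T (fun u => ev1 w (ext1 u) ≠ 0) u₀ z.1 z.2) with hGd
  have hdat : ∀ (M : Matrix (Fin d) (Fin d) (ZMod p)) (b : Fin d → ZMod p),
      dat (fun q => mkv M b N (Sum.inl q)) N = mkv M b N := by
    intro M b
    funext q
    rcases q with q | q
    · rfl
    · rfl
  have h2 : Gd.card ≤
      ((univ : Finset (Fin (d + 1) × Fin d → ZMod p)).filter
        (fun a => GoodE w x N a)).card := by
    apply Finset.card_le_card_of_injOn
      (fun z : Matrix (Fin d) (Fin d) (ZMod p) × (Fin d → ZMod p) =>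
        fun q => mkv z.1 z.2 N (Sum.inl q))
    · rintro ⟨M, b⟩ hz
      rw [Finset.mem_coe, hGd, Finset.mem_filter] at hz
      simp only at hz
      obtain ⟨-, hper, hgood⟩ := hz
      rw [Finset.mem_coe, Finset.mem_filter]
      have hNp : N ^ (p - 1) = 1 := ZMod.pow_card_sub_one_eq_one hN
      have hper' : ∀ m n, it M b u₀ (n + m * T) = it M b u₀ n := by
        intro m
        induction m with
        | zero => intro n; rw [zero_mul, add_zero]
        | succ m ih =>
          intro n
          rw [Nat.succ_mul, ← add_assoc, hper, ih]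
      refine ⟨mem_univ _, ?_, ?_⟩
      · intro n
        simp only
        rw [hdat, hx, vecMul_pow, vecMul_pow, pow_add, hNp, mul_one, ← hT, hper']
      · intro n
        simp only
        rw [hdat, hx, vecMul_pow, hval_smul_ext1]
        exact mul_ne_zero (pow_ne_zero _ (mul_ne_zero (pow_ne_zero _ hN) hσ)) (hgood n)
    · rintro ⟨M, b⟩ hz ⟨M', b'⟩ hz' h
      simp only at h
      have h3 : mkv M b N = mkv M' b' N := by
        rw [← hdat M b, ← hdat M' b', h]
      obtain ⟨rfl, rfl, -⟩ := mkv_inj M M' b b' N N hN h3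
      rfl
  have hdd : (d + 1) * d = d * d + d := by ring
  rw [hdd]
  exact h1.trans (Nat.mul_le_mul_left _ h2)

end Pool.Agent.R851.SK
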