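import Pool.Agent.R851.SK.Cnt

set_option autoImplicit false

/-!
Counting, modulo a prime, the coefficient vectors for which the recurrence with given nonzero
initial values has no zero.
-/

namespace Pool.Agent.R851.SK

open Finset Pool.Agent.TH838.SK Pool.Agent.H884R2.Sko Polynomial

section

variable {K : Type} [Field K] [DecidableEq K]

/-- the set of the multiples of the elements of `S` by `t` -/
def scl (t : K) (S : Finset K) : Finset K := S.image (fun a => t * a)

theorem scl_card (t : K) (ht : t ≠ 0) (S : Finset K) : (scl t S).card = S.card :=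
  Finset.card_image_of_injective _ (mul_right_injective₀ ht)

theorem poly_scl (t : K) (ht : t ≠ 0) (S : Finset K) (i : ℕ) :
    (poly (scl t S)).coeff i = t ^ S.card * (poly S).coeff i * (t⁻¹) ^ i := by
  have h1 : poly (scl t S) = C (t ^ S.card) * (poly S).comp (C t⁻¹ * X) := by
    unfold poly scl
    rw [Finset.prod_image (fun a _ b _ h => mul_left_cancel₀ ht h), Polynomial.prod_comp, C_pow,
      ← Finset.prod_const, ← Finset.prod_mul_distrib]
    refine Finset.prod_congr rfl fun a _ => ?_
    rw [sub_comp, X_comp, C_comp, mul_sub, ← mul_assoc, ← C_mul, mul_inv_cancel₀ ht, C_1, one_mul,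
      ← C_mul]
  rw [h1, coeff_C_mul, comp_C_mul_X_coeff, mul_assoc]

theorem seq_scl {d : ℕ} (t : K) (ht : t ≠ 0) (S : Finset K) (hS : S.card = d) (a : Fin d → K)
    (n : ℕ) : seq (coef d (scl t S)) a n =
      t ^ n * seq (coef d S) (fun j => (t⁻¹) ^ (j : ℕ) * a j) n := by
  symm
  apply eq_seq _ _ (fun n => t ^ n * seq (coef d S) (fun j => (t⁻¹) ^ (j : ℕ) * a j) n)
  · intro n
    rw [seq_sol, Finset.mul_sum]
    refine Finset.sum_congr rfl fun i _ => ?_
    have h1 : coef d (scl t S) i = t ^ d * coef d S i * (t⁻¹) ^ (i : ℕ) := by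
      unfold coef
      rw [poly_scl t ht, hS]
      ring
    rw [h1]
    have h2 : (t⁻¹) ^ (i : ℕ) * t ^ (n + i) = t ^ n := by
      rw [pow_add, inv_pow]
      field_simp
    calc t ^ (n + d) * (coef d S i * seq (coef d S) (fun j => (t⁻¹) ^ (j : ℕ) * a j) (n + i)) =
        t ^ d * coef d S i * t ^ n * seq (coef d S) (fun j => (t⁻¹) ^ (j : ℕ) * a j) (n + i) := by
          ring
      _ = t ^ d * coef d S i * ((t⁻¹) ^ (i : ℕ) * t ^ (n + i)) *
          seq (coef d S) (fun j => (t⁻¹) ^ (j : ℕ) * a j) (n + i) := by rw [h2]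
      _ = _ := by ring
  · intro i
    rw [seq_init, ← mul_assoc, ← mul_pow, mul_inv_cancel₀ ht, one_pow, one_mul]

theorem seq_lin {d : ℕ} (c b : Fin d → K) (n : ℕ) :
    seq c b n = ∑ j, b j * seq c (Pi.single j 1) n := by
  have h := LinearMap.pi_apply_eq_sum_univ (ev c n) b
  have h2 : ∀ j : Fin d, (fun i => if j = i then (1 : K) else 0) = Pi.single j 1 := by
    intro j
    funext i
    rw [Pi.single_apply]
    by_cases h : j = i
    · rw [if_pos h, if_pos h.symm]
    · rw [if_neg h, if_neg (fun h' => h h'.symm)]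
  simp only [smul_eq_mul, h2] at h
  exact h

theorem card_poly_zero [Fintype K] {d : ℕ} (b : Fin d → K) (hb : b ≠ 0) :
    ((univ : Finset K).filter (fun s => ∑ j, b j * s ^ (j : ℕ) = 0)).card ≤ d - 1 := by
  set P : K[X] := ∑ j : Fin d, C (b j) * X ^ (j : ℕ) with hP
  obtain ⟨j₀, hj₀⟩ := Function.ne_iff.1 hb
  have hd : 1 ≤ d := by have := j₀.2; omega
  have hc : ∀ j : Fin d, P.coeff j = b j := by
    intro j
    rw [hP, finsetSum_coeff, Finset.sum_eq_single j]
    · rw [coeff_C_mul, coeff_X_pow_self, mul_one]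
    · intro i _ hi
      rw [coeff_C_mul, coeff_X_pow, if_neg (fun h => hi (Fin.ext h.symm)), mul_zero]
    · intro h
      exact absurd (mem_univ _) h
  have hP0 : P ≠ 0 := by
    intro h
    apply hj₀
    rw [← hc j₀, h, coeff_zero]
    rfl
  have hdeg : P.natDegree ≤ d - 1 := by
    rw [hP]
    apply natDegree_sum_le_of_forall_le
    intro j _
    refine (natDegree_C_mul_X_pow_le _ _).trans ?_
    have := j.2
    omega
  have hev : ∀ s, P.eval s = ∑ j, b j * s ^ (j : ℕ) := by
    intro s
    rw [hP, eval_finsetSum]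
    simp
  calc ((univ : Finset K).filter (fun s => ∑ j, b j * s ^ (j : ℕ) = 0)).card ≤
      P.roots.toFinset.card := by
        apply Finset.card_le_card
        intro s hs
        rw [Finset.mem_filter] at hs
        rw [Multiset.mem_toFinset, mem_roots hP0, IsRoot.def, hev]
        exact hs.2
    _ ≤ P.roots.card := Multiset.toFinset_card_le _
    _ ≤ P.natDegree := card_roots' P
    _ ≤ d - 1 := hdeg

open Classical in
/-- for nonzero initial values: the number of scaling factors with a zero -/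
theorem card_bad_scl [Fintype K] {d : ℕ} (hd : 1 ≤ d) (T : ℕ) (hT : 0 < T) (S : Finset K)
    (hS : S.card = d) (hST : ∀ a ∈ S, a ^ T = 1) (a : Fin d → K) (ha : ∀ j, a j ≠ 0) :
    ((univ : Finset K).filter (fun t => t ≠ 0 ∧ ∃ n, seq (coef d (scl t S)) a n = 0)).card ≤
      T * (d - 1) := by
  classical
  set b : ℕ → Fin d → K := fun n j => a j * seq (coef d S) (Pi.single j 1) n with hb
  have hb0 : ∀ n, b n ≠ 0 := by
    intro n h0
    have hinj := shift_inj d T hT S hS hST n
    have hsurj := Finite.surjective_of_injective hinj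
    obtain ⟨v, hv⟩ := hsurj (fun _ => 1)
    have h1 := congrFun hv ⟨0, hd⟩
    simp only [add_zero] at h1
    rw [seq_lin] at h1
    have h2 : ∀ j, seq (coef d S) (Pi.single j 1) n = 0 := by
      intro j
      have := congrFun h0 j
      exact (mul_eq_zero.1 this).resolve_left (ha j)
    simp only [h2, mul_zero, Finset.sum_const_zero] at h1
    exact zero_ne_one h1
  have hval : ∀ t : K, t ≠ 0 → ∀ n, seq (coef d (scl t S)) a n =
      t ^ n * ∑ j, b n j * (t⁻¹) ^ (j : ℕ) := by
    intro t ht n
    rw [seq_scl t ht S hS, seq_lin]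
    congr 1
    refine Finset.sum_congr rfl fun j _ => ?_
    rw [hb]
    ring
  have hbmod : ∀ n, b (n % T) = b n := by
    intro n
    funext j
    rw [hb]
    simp only
    rw [seq_mod d T S hS hST _ n]
  have hsub : (univ : Finset K).filter
      (fun t => t ≠ 0 ∧ ∃ n, seq (coef d (scl t S)) a n = 0) ⊆
      (range T).biUnion (fun n => ((univ : Finset K).filter
        (fun s => ∑ j, b n j * s ^ (j : ℕ) = 0)).image (fun s => s⁻¹)) := by
    intro t ht
    rw [Finset.mem_filter] at ht
    obtain ⟨_, ht0, n, hn⟩ := ht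
    rw [hval t ht0] at hn
    have h1 := (mul_eq_zero.1 hn).resolve_left (pow_ne_zero _ ht0)
    rw [Finset.mem_biUnion]
    refine ⟨n % T, Finset.mem_range.2 (Nat.mod_lt _ hT), ?_⟩
    rw [Finset.mem_image]
    refine ⟨t⁻¹, ?_, inv_inv t⟩
    rw [Finset.mem_filter, hbmod]
    exact ⟨mem_univ _, h1⟩
  refine (Finset.card_le_card hsub).trans (Finset.card_biUnion_le.trans ?_)
  calc ∑ n ∈ range T, (((univ : Finset K).filter
        (fun s => ∑ j, b n j * s ^ (j : ℕ) = 0)).image (fun s => s⁻¹)).card ≤
      ∑ _n ∈ range T, (d - 1) := Finset.sum_le_sum fun n _ =>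
        Finset.card_image_le.trans (card_poly_zero (b n) (hb0 n))
    _ = _ := by rw [Finset.sum_const, Finset.card_range, smul_eq_mul]

end

/-- the sequence over `ZMod p` has period `p - 1` and no zero term -/
def GoodF {p d : ℕ} (a c : Fin d → ZMod p) : Prop :=
  (∀ n, seq c a (n + (p - 1)) = seq c a n) ∧ ∀ n, seq c a n ≠ 0

open Classical in
theorem card_goodF (p : ℕ) [Fact p.Prime] (d k T : ℕ) (hd : 1 ≤ d) (hk : k = 2 * d)
    (hT : k * T = p - 1) (hp' : 2 * k * d + 2 ≤ p) (a : Fin d → ZMod p) (ha : ∀ j, a j ≠ 0) :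
    p ^ d ≤ 4 * (2 * k) ^ (d - 1) * d.factorial *
      ((univ : Finset (Fin d → ZMod p)).filter (fun c => GoodF a c)).card := by
  have hprime : p.Prime := Fact.out
  have hk2 : 2 ≤ k := by omega
  have hp2 : 2 ≤ p := hprime.two_le
  have hTpos : 0 < T := by
    rcases Nat.eq_zero_or_pos T with h | h
    · rw [h, mul_zero] at hT
      omega
    · exact h
  obtain ⟨Q, hQ1, hQ2⟩ := exists_powers p k T (by omega) hT
  set Q' := Q.erase 1 with hQ'
  have hQ'c : T - 1 ≤ Q'.card := by
    have := Finset.pred_card_le_card_erase (s := Q) (a := (1 : ZMod p))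
    rw [hQ1] at this
    have h0 : Q'.card = (Q.erase 1).card := by rw [hQ']
    omega
  set A := Q'.powersetCard (d - 1) with hA
  have hA1 : ∀ S ∈ A, (1 : ZMod p) ∉ S ∧ (insert 1 S).card = d ∧
      ∀ x ∈ insert (1 : ZMod p) S, x ^ T = 1 ∧ x ≠ 0 := by
    intro S hS
    obtain ⟨h1, h2⟩ := Finset.mem_powersetCard.1 hS
    have h3 : (1 : ZMod p) ∉ S := fun h => Finset.notMem_erase 1 Q (h1 h)
    have hpow : ∀ x ∈ insert (1 : ZMod p) S, x ^ T = 1 := by
      intro x hx
      rw [Finset.mem_insert] at hx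
      rcases hx with rfl | hx
      · rw [one_pow]
      · exact hQ2 x (Finset.mem_of_mem_erase (h1 hx))
    refine ⟨h3, ?_, fun x hx => ⟨hpow x hx, ?_⟩⟩
    · rw [Finset.card_insert_of_notMem h3, h2]
      omega
    · intro h0
      have := hpow x hx
      rw [h0, zero_pow hTpos.ne'] at this
      exact zero_ne_one this
  set good : Finset (ZMod p) → Finset (ZMod p) := fun S =>
    (univ.erase (0 : ZMod p)).filter
      (fun t => ¬ ∃ n, seq (coef d (scl t (insert 1 S))) a n = 0) with hgood
  have hgoodc : ∀ S ∈ A, p ≤ 4 * (good S).card := by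
    intro S hS
    obtain ⟨h1, h2, h3⟩ := hA1 S hS
    have h4 := card_bad_scl hd T hTpos (insert 1 S) h2 (fun x hx => (h3 x hx).1) a ha
    have h5 : (univ.erase (0 : ZMod p)).card = p - 1 := by
      rw [Finset.card_erase_of_mem (Finset.mem_univ _), Finset.card_univ, ZMod.card]
    have h6 : (univ.erase (0 : ZMod p)).card = (good S).card +
        ((univ.erase (0 : ZMod p)).filter
          (fun t => ∃ n, seq (coef d (scl t (insert 1 S))) a n = 0)).card := by
      rw [hgood]
      simp only
      rw [add_comm, Finset.card_filter_add_card_filter_not]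
    have h7 : ((univ.erase (0 : ZMod p)).filter
          (fun t => ∃ n, seq (coef d (scl t (insert 1 S))) a n = 0)).card ≤ T * (d - 1) := by
      refine le_trans (Finset.card_le_card ?_) h4
      intro t ht
      rw [Finset.mem_filter, Finset.mem_erase] at ht
      rw [Finset.mem_filter]
      exact ⟨mem_univ _, ht.1.1, ht.2⟩
    have h8 : 2 * (T * (d - 1)) ≤ p - 1 := by
      rw [← hT, hk]
      calc 2 * (T * (d - 1)) = 2 * (d - 1) * T := by ring
        _ ≤ 2 * d * T := Nat.mul_le_mul_right _ (by omega)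
    omega
  have hchoose : p ^ (d - 1) ≤ (2 * k) ^ (d - 1) * ((d - 1).factorial * A.card) := by
    rw [hA, Finset.card_powersetCard]
    have h1 := Nat.pow_sub_le_descFactorial Q'.card (d - 1)
    rw [Nat.descFactorial_eq_factorial_mul_choose] at h1
    have h3 : p ≤ 2 * k * (Q'.card + 1 - (d - 1)) := by
      have h4 : d ≤ T := by
        by_contra hcon
        push Not at hcon
        have : k * T ≤ k * d := Nat.mul_le_mul_left _ (by omega)
        have h5 : 2 * k * d = 2 * (k * d) := by ring
        omega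
      obtain ⟨t, ht⟩ : ∃ t, T = d + t := ⟨T - d, by omega⟩
      have h7 : t ≤ Q'.card + 1 - (d - 1) := by omega
      refine le_trans ?_ (Nat.mul_le_mul_left _ h7)
      have h8 : 2 * k * d = 2 * (k * d) := by ring
      have h9 : k * (d + t) = k * d + k * t := by ring
      have h10 : 2 * k * t = 2 * (k * t) := by ring
      rw [ht, h9] at hT
      omega
    calc p ^ (d - 1) ≤ (2 * k * (Q'.card + 1 - (d - 1))) ^ (d - 1) := Nat.pow_le_pow_left h3 _
      _ = (2 * k) ^ (d - 1) * (Q'.card + 1 - (d - 1)) ^ (d - 1) := by rw [mul_pow]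
      _ ≤ _ := Nat.mul_le_mul_left _ h1
  set B : Finset ((_ : Finset (ZMod p)) × ZMod p) := A.sigma good with hB
  have hBc : A.card * p ≤ 4 * B.card := by
    rw [hB, Finset.card_sigma, Finset.mul_sum, ← smul_eq_mul A.card]
    exact Finset.card_nsmul_le_sum _ _ _ hgoodc
  set F : ((_ : Finset (ZMod p)) × ZMod p) → (Fin d → ZMod p) :=
    fun z => coef d (scl z.2 (insert 1 z.1)) with hF
  have hmem : ∀ z ∈ B, z.1 ∈ A ∧ z.2 ≠ 0 ∧
      ∀ n, seq (coef d (scl z.2 (insert 1 z.1))) a n ≠ 0 := by
    intro z hz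
    rw [hB, Finset.mem_sigma] at hz
    have h1 := hz.2
    rw [hgood] at h1
    simp only [Finset.mem_filter, Finset.mem_erase] at h1
    refine ⟨hz.1, h1.1.1, fun n hn => h1.2 ⟨n, hn⟩⟩
  have himg : (B.image F).card ≤
      ((univ : Finset (Fin d → ZMod p)).filter (fun c => GoodF a c)).card := by
    apply Finset.card_le_card
    intro c hc
    rw [Finset.mem_image] at hc
    obtain ⟨z, hz, rfl⟩ := hc
    obtain ⟨h1, h2, h3⟩ := hmem z hz
    obtain ⟨h4, h5, h6⟩ := hA1 _ h1
    rw [Finset.mem_filter]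
    refine ⟨mem_univ _, ?_, h3⟩
    intro n
    apply seq_periodic d (p - 1) _ (by rw [scl_card _ h2, h5])
    intro x hx
    unfold scl at hx
    rw [Finset.mem_image] at hx
    obtain ⟨y, hy, rfl⟩ := hx
    exact ZMod.pow_card_sub_one_eq_one (mul_ne_zero h2 (h6 y hy).2)
  have hfib : B.card ≤ d * (B.image F).card := by
    apply Finset.card_le_mul_card_image
    intro c hc
    rw [Finset.mem_image] at hc
    obtain ⟨z, hz, rfl⟩ := hc
    obtain ⟨h1, h2, -⟩ := hmem z hz
    obtain ⟨h4, h5, h6⟩ := hA1 _ h1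
    set Λ := scl z.2 (insert 1 z.1) with hΛ
    have hΛc : Λ.card = d := by rw [hΛ, scl_card _ h2, h5]
    have hsub : B.filter (fun z' => F z' = F z) ⊆
        Λ.image (fun t => (⟨(Λ.image (fun x => t⁻¹ * x)).erase 1, t⟩ :
          (_ : Finset (ZMod p)) × ZMod p)) := by
      intro z' hz'
      rw [Finset.mem_filter] at hz'
      obtain ⟨h7, h8, -⟩ := hmem z' hz'.1
      obtain ⟨h9, h10, h11⟩ := hA1 _ h7
      have h12 : scl z'.2 (insert 1 z'.1) = Λ :=
        coef_inj (by rw [scl_card _ h8, h10]) hΛc hz'.2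
      rw [Finset.mem_image]
      refine ⟨z'.2, ?_, ?_⟩
      · rw [← h12]
        unfold scl
        rw [Finset.mem_image]
        exact ⟨1, Finset.mem_insert_self _ _, mul_one _⟩
      · rcases z' with ⟨S', t'⟩
        simp only at h8 h9 h12 ⊢
        have h13 : Λ.image (fun x => t'⁻¹ * x) = insert 1 S' := by
          rw [← h12]
          unfold scl
          rw [Finset.image_image]
          have h14 : ((fun x => t'⁻¹ * x) ∘ fun a => t' * a) = id := by
            funext x
            simp only [Function.comp, id]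
            rw [← mul_assoc, inv_mul_cancel₀ h8, one_mul]
          rw [h14, Finset.image_id]
        rw [h13, Finset.erase_insert h9]
    refine (Finset.card_le_card hsub).trans (Finset.card_image_le.trans ?_)
    rw [hΛc]
  have hfac : (d - 1).factorial * d = d.factorial := by
    obtain ⟨e, rfl⟩ : ∃ e, d = e + 1 := ⟨d - 1, by omega⟩
    rw [Nat.add_sub_cancel, Nat.factorial_succ]
    ring
  calc p ^ d = p ^ (d - 1) * p := by rw [← pow_succ]; congr 1; omega
    _ ≤ (2 * k) ^ (d - 1) * ((d - 1).factorial * A.card) * p := Nat.mul_le_mul_right _ hchoose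
    _ = (2 * k) ^ (d - 1) * (d - 1).factorial * (A.card * p) := by ring
    _ ≤ (2 * k) ^ (d - 1) * (d - 1).factorial * (4 * B.card) := Nat.mul_le_mul_left _ hBc
    _ ≤ (2 * k) ^ (d - 1) * (d - 1).factorial * (4 * (d * (B.image F).card)) := by gcongr
    _ = 4 * (2 * k) ^ (d - 1) * ((d - 1).factorial * d) * (B.image F).card := by ring
    _ = 4 * (2 * k) ^ (d - 1) * d.factorial * (B.image F).card := by rw [hfac]
    _ ≤ _ := Nat.mul_le_mul_left _ himg

end Pool.Agent.R851.SK
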