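import Pool.Agent.R851.SK.Cnt
import Pool.Agent.R851.SK.Sv

set_option autoImplicit false

/-!
Almost all affine maps: all small starting points, all small polynomials.
-/

namespace Pool.Agent.R851.SK

open Filter Finset Pool.Agent.TH838.SK Pool.Agent.H684R3.Smo Pool.Agent.H884R2.Sko
  Pool.Agent.H692R2.USS Matrix

/-- size of the value of a polynomial -/
theorem abs_ev1 {d r : ℕ} (w : (Fin d → Fin (r + 1)) → ℤ) (x : Fin d → ℤ) (X : ℝ) (hX : 1 ≤ X)
    (hw : ∀ e, |(w e : ℝ)| ≤ X) (hx : ∀ i, |(x i : ℝ)| ≤ X) :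
    |((ev1 w x : ℤ) : ℝ)| ≤ ((r + 1 : ℕ) ^ d : ℝ) * X ^ (1 + d * r) := by
  unfold ev1
  push_cast
  refine (Finset.abs_sum_le_sum_abs _ _).trans ?_
  have h1 : ∀ e : Fin d → Fin (r + 1), |(w e : ℝ) * ∏ i, (x i : ℝ) ^ (e i : ℕ)| ≤
      X ^ (1 + d * r) := by
    intro e
    rw [abs_mul, Finset.abs_prod, pow_add, pow_one]
    have h2 : ∏ i, |(x i : ℝ) ^ (e i : ℕ)| ≤ X ^ (d * r) := by
      calc ∏ i, |(x i : ℝ) ^ (e i : ℕ)| ≤ ∏ _i : Fin d, X ^ r := by
            apply Finset.prod_le_prod (fun i _ => abs_nonneg _)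
            intro i _
            rw [abs_pow]
            calc |(x i : ℝ)| ^ (e i : ℕ) ≤ X ^ (e i : ℕ) :=
                  pow_le_pow_left₀ (abs_nonneg _) (hx i) _
              _ ≤ X ^ r := pow_le_pow_right₀ hX (by have := (e i).2; omega)
        _ = X ^ (d * r) := by
            rw [Finset.prod_const, Finset.card_univ, Fintype.card_fin, ← pow_mul, mul_comm]
    exact mul_le_mul (hw e) h2 (Finset.prod_nonneg fun _ _ => abs_nonneg _) (by linarith)
  calc ∑ e, |(w e : ℝ) * ∏ i, (x i : ℝ) ^ (e i : ℕ)| ≤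
        ∑ _e : Fin d → Fin (r + 1), X ^ (1 + d * r) := Finset.sum_le_sum fun e _ => h1 e
    _ = _ := by
        rw [Finset.sum_const, Finset.card_univ, Fintype.card_fun, Fintype.card_fin,
          Fintype.card_fin, nsmul_eq_mul]
        push_cast
        ring

theorem ev1_cast {d r : ℕ} (p : ℕ) (w : (Fin d → Fin (r + 1)) → ℤ) (x : Fin d → ℤ) :
    ((ev1 w x : ℤ) : ZMod p) = ev1 (fun e => (w e : ZMod p)) (fun i => (x i : ZMod p)) := by
  simp [ev1]

/-- the matrix with the entries `v` -/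
def mt {R : Type} {d : ℕ} {κ : Type} (v : (Fin d × Fin d) ⊕ κ → R) : Matrix (Fin d) (Fin d) R :=
  fun i j => v (Sum.inl (i, j))

/-- `y` is the orbit of `x` under the affine map with data `v` -/
def Orb {d : ℕ} (v : (Fin d × Fin d) ⊕ Fin d → ℤ) (x : Fin d → ℤ) (y : ℕ → Fin d → ℤ) : Prop :=
  y 0 = x ∧ ∀ n i, y (n + 1) i = ∑ j, v (Sum.inl (i, j)) * y n j + v (Sum.inr i)

theorem orb_cast {d : ℕ} (v : (Fin d × Fin d) ⊕ Fin d → ℤ) (x : Fin d → ℤ) (y : ℕ → Fin d → ℤ)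
    (hy : Orb v x y) (p n : ℕ) : (fun i => (y n i : ZMod p)) =
      it (mt fun q => (v q : ZMod p)) (fun i => (v (Sum.inr i) : ZMod p))
        (fun i => (x i : ZMod p)) n := by
  induction n with
  | zero => rw [it_zero, hy.1]
  | succ n ih =>
    rw [it_succ, ← ih]
    funext i
    rw [hy.2 n i]
    rw [Pi.add_apply, Matrix.mulVec, dotProduct]
    push_cast
    rfl

theorem goodA_cert {d r : ℕ} (v : (Fin d × Fin d) ⊕ Fin d → ℤ) (x : Fin d → ℤ)
    (y : ℕ → Fin d → ℤ) (hy : Orb v x y) (w : (Fin d → Fin (r + 1)) → ℤ) (p T k : ℕ)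
    (hT : k * T = p - 1)
    (h : GoodA (p := p) T (fun e => (w e : ZMod p)) (fun i => (x i : ZMod p))
      (mt fun q => (v q : ZMod p)) (fun i => (v (Sum.inr i) : ZMod p))) (n : ℕ) :
    ¬ (p : ℤ) ∣ ev1 w (y n) ∧ ∀ i, (p : ℤ) ∣ y (n + (p - 1)) i - y n i := by
  have hper : ∀ m n, it (mt fun q => (v q : ZMod p)) (fun i => (v (Sum.inr i) : ZMod p))
        (fun i => (x i : ZMod p)) (n + m * T) =
      it (mt fun q => (v q : ZMod p)) (fun i => (v (Sum.inr i) : ZMod p))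
        (fun i => (x i : ZMod p)) n := by
    intro m
    induction m with
    | zero => intro n; rw [zero_mul, add_zero]
    | succ m ih =>
      intro n
      rw [Nat.succ_mul, ← add_assoc, h.1, ih]
  constructor
  · intro hn
    rw [← ZMod.intCast_zmod_eq_zero_iff_dvd, ev1_cast, orb_cast v x y hy] at hn
    exact h.2 n hn
  · intro i
    rw [← ZMod.intCast_zmod_eq_zero_iff_dvd, Int.cast_sub]
    have h1 := congrFun (orb_cast v x y hy p (n + (p - 1))) i
    have h2 := congrFun (orb_cast v x y hy p n) i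
    rw [h1, h2, ← hT, hper, sub_self]

/-- All small polynomials and all small starting points are easy. -/
def EasyA (d r : ℕ) (X Y : ℝ) (v : (Fin d × Fin d) ⊕ Fin d → ℤ) : Prop :=
  ∀ (w : (Fin d → Fin (r + 1)) → ℤ) (x : Fin d → ℤ), (∀ e, |(w e : ℝ)| ≤ X) →
    (∀ i, |(x i : ℝ)| ≤ X) → ev1 w x ≠ 0 → ∀ y, Orb v x y →
    ∃ p : ℕ, p.Prime ∧ (p : ℝ) ≤ Y ∧
      ∀ n, ¬ (p : ℤ) ∣ ev1 w (y n) ∧ ∀ i, (p : ℤ) ∣ y (n + (p - 1)) i - y n i

theorem mainA (d r : ℕ) : ∃ A δ : ℝ, 0 < A ∧ 0 < δ ∧ ∃ H₀ : ℕ,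
    ∀ H : ℕ, H₀ ≤ H → ∀ b : (Fin d × Fin d) ⊕ Fin d → ℤ,
      (Nat.card {v : (Fin d × Fin d) ⊕ Fin d → ℤ // v ∈ bx b H ∧
        ¬ EasyA d r ((H : ℝ) ^ δ) (Real.log H ^ A) v} : ℝ) ≤
        (2 * (H : ℝ) + 1) ^ Fintype.card ((Fin d × Fin d) ⊕ Fin d) * (H : ℝ) ^ (-δ) := by
  classical
  set k : ℕ := 2 * (d * r + 1) with hk
  set M : ℕ := 4 * (2 * k) ^ d * d ^ d with hM
  have hMpos : 0 < M := by
    have h1 : 0 < d ^ d := by
      rcases Nat.eq_zero_or_pos d with h0 | h0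
      · subst h0; simp
      · exact pow_pos h0 _
    have h2 : 0 < (2 * k) ^ d := pow_pos (by omega) _
    positivity
  set p₀ : ℕ := 4 * d + (2 * k * d + 2) with hp₀
  obtain ⟨θ, hθ, hcount⟩ := primes_one k (by omega) p₀
  set P : ℕ → Prop := fun p => p.Prime ∧ p₀ ≤ p ∧ k ∣ p - 1 with hP
  set κ : ℝ := 1 / (M : ℕ) with hκ
  have hκ0 : 0 < κ := by positivity
  have hcast : ∀ (s : (Fin d → Fin (r + 1)) ⊕ Fin d → ℤ) (p : ℕ), ¬ (p : ℤ) ∣
      ev1 (fun e => s (Sum.inl e)) (fun i => s (Sum.inr i)) →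
      ev1 (fun e => (s (Sum.inl e) : ZMod p)) (fun i => (s (Sum.inr i) : ZMod p)) ≠ 0 := by
    intro s p h h0
    apply h
    rw [← ZMod.intCast_zmod_eq_zero_iff_dvd, ev1_cast]
    exact h0
  obtain ⟨A, δ, hA, hδ, H₁, hmain⟩ := sieve_union ((Fin d × Fin d) ⊕ Fin d)
    ((Fin d → Fin (r + 1)) ⊕ Fin d) P κ θ ((r + 1 : ℕ) ^ d : ℝ) (1 + d * r) hκ0 hθ
    (one_le_pow₀ (by push_cast; linarith [Nat.cast_nonneg (α := ℝ) r])) hcount
    (fun p hp => hp.1)
    (fun s => ev1 (fun e => s (Sum.inl e)) (fun i => s (Sum.inr i)))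
    (fun s X hX h => abs_ev1 _ _ X hX (fun e => h _) (fun i => h _))
    (fun s p => {v | GoodA (p := p) ((p - 1) / k) (fun e => (s (Sum.inl e) : ZMod p))
      (fun i => (s (Sum.inr i) : ZMod p)) (mt v) (fun i => v (Sum.inr i))})
    (by
      intro s p hp hps
      have : Fact p.Prime := ⟨hp.1⟩
      have hT : k * ((p - 1) / k) = p - 1 := Nat.mul_div_cancel' hp.2.2
      have h1 := card_goodA p d r k ((p - 1) / k) hk hT (by have := hp.2.1; omega)
        (by have := hp.2.1; omega) _ _ (hcast s p hps)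
      have h2 : Nat.card {v : (Fin d × Fin d) ⊕ Fin d → ZMod p |
          GoodA (p := p) ((p - 1) / k) (fun e => (s (Sum.inl e) : ZMod p))
          (fun i => (s (Sum.inr i) : ZMod p)) (mt v) (fun i => v (Sum.inr i))} =
          ((univ : Finset (Matrix (Fin d) (Fin d) (ZMod p) × (Fin d → ZMod p))).filter
            (fun z => GoodA ((p - 1) / k) (fun e => (s (Sum.inl e) : ZMod p))
              (fun i => (s (Sum.inr i) : ZMod p)) z.1 z.2)).card := by
        rw [← Fintype.card_subtype, ← Nat.card_eq_fintype_card]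
        apply Nat.card_congr
        exact
          { toFun := fun v => ⟨(mt v.1, fun i => v.1 (Sum.inr i)), v.2⟩
            invFun := fun z => ⟨Sum.elim (fun q => z.1.1 q.1 q.2) z.1.2, z.2⟩
            left_inv := fun v => by
              apply Subtype.ext
              funext q
              rcases q with q | q
              · rfl
              · rfl
            right_inv := fun z => rfl }
      have h3 : Fintype.card ((Fin d × Fin d) ⊕ Fin d) = d * d + d := by simp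
      rw [h2, h3, hκ, one_div, inv_mul_le_iff₀ (by positivity)]
      exact_mod_cast h1)
  refine ⟨A, δ, hA, hδ, H₁, fun H hH b => ?_⟩
  refine le_trans ?_ (hmain H hH b)
  have hfin : Finite {v : (Fin d × Fin d) ⊕ Fin d → ℤ // v ∈ bx b H ∧
      ∃ s : (Fin d → Fin (r + 1)) ⊕ Fin d → ℤ, (∀ j, |(s j : ℝ)| ≤ (H : ℝ) ^ δ) ∧
        ev1 (fun e => s (Sum.inl e)) (fun i => s (Sum.inr i)) ≠ 0 ∧
        ∀ p, P p → ¬ (p : ℤ) ∣ ev1 (fun e => s (Sum.inl e)) (fun i => s (Sum.inr i)) →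
          (p : ℝ) ≤ Real.log H ^ A → (fun i => (v i : ZMod p)) ∉
          ({v | GoodA (p := p) ((p - 1) / k) (fun e => (s (Sum.inl e) : ZMod p))
            (fun i => (s (Sum.inr i) : ZMod p)) (mt v) (fun i => v (Sum.inr i))} :
              Set ((Fin d × Fin d) ⊕ Fin d → ZMod p))} :=
    Finite.of_injective (fun v => (⟨v.1, v.2.1⟩ : {v // v ∈ bx b H})) (by
      intro v w hvw
      exact Subtype.ext (congrArg (fun z : {v // v ∈ bx b H} => z.1) hvw))
  refine Nat.cast_le.2 (Nat.card_le_card_of_injective (fun v => ⟨v.1, v.2.1, ?_⟩) ?_)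
  · have h := v.2.2
    unfold EasyA at h
    push Not at h
    obtain ⟨w, x, hw, hx, hwx, y, hy, hno⟩ := h
    refine ⟨Sum.elim w x, ?_, hwx, ?_⟩
    · rintro (e | i)
      · exact hw e
      · exact hx i
    · intro p hp _ hpA hG
      obtain ⟨n, hn⟩ := hno p hp.1 hpA
      have h1 := goodA_cert v.1 x y hy w p ((p - 1) / k) k (Nat.mul_div_cancel' hp.2.2) hG n
      obtain ⟨i, hi⟩ := hn h1.1
      exact hi (h1.2 i)
  · intro v v' h
    exact Subtype.ext (congrArg (fun z => z.1) h)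

end Pool.Agent.R851.SK
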