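import Pool.Agent.R851.SK.CntB
import Pool.Agent.R851.SK.MainA

set_option autoImplicit false

/-!
Almost all matrices: all small starting points, all small forms.
-/

namespace Pool.Agent.R851.SK

open Filter Finset Pool.Agent.TH838.SK Pool.Agent.H684R3.Smo Pool.Agent.H884R2.Sko
  Pool.Agent.H692R2.USS Matrix

/-- the matrix with the entries `v` -/
def mtB {R : Type} {d : ℕ} (v : Fin d × Fin d → R) : Matrix (Fin d) (Fin d) R :=
  fun i j => v (i, j)

theorem mtB_pow {d : ℕ} (v : Fin d × Fin d → ℤ) (p n : ℕ) :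
    (mtB fun q => (v q : ZMod p)) ^ n = ((mtB v) ^ n).map (Int.castRingHom (ZMod p)) := by
  rw [Matrix.map_pow]
  rfl

theorem goodB_cert {d r : ℕ} (v : Fin d × Fin d → ℤ) (x : Fin d → ℤ)
    (w : (Fin d → Fin (r + 1)) → ℤ) (p T k : ℕ) (hT : k * T = p - 1)
    (h : GoodB (p := p) T (fun e => (w e : ZMod p)) (fun i => (x i : ZMod p))
      (mtB fun q => (v q : ZMod p))) :
    (∀ i j, (p : ℤ) ∣ ((mtB v) ^ (p - 1)) i j - (1 : Matrix (Fin d) (Fin d) ℤ) i j) ∧
    ∀ n, ¬ (p : ℤ) ∣ ev1 w (((mtB v) ^ n).mulVec x) := by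
  constructor
  · intro i j
    have h1 : (mtB fun q => (v q : ZMod p)) ^ (p - 1) = 1 := by
      rw [← hT, mul_comm, pow_mul, h.1, one_pow]
    rw [mtB_pow] at h1
    have h2 := congrFun (congrFun h1 i) j
    rw [Matrix.map_apply] at h2
    rw [← ZMod.intCast_zmod_eq_zero_iff_dvd, Int.cast_sub]
    rw [eq_intCast] at h2
    rw [h2]
    rw [Matrix.one_apply, Matrix.one_apply]
    split_ifs <;> simp
  · intro n hn
    rw [← ZMod.intCast_zmod_eq_zero_iff_dvd, ev1_cast] at hn
    apply h.2 n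
    rw [mtB_pow]
    rw [← hn]
    congr 1
    funext i
    simp [Matrix.mulVec, dotProduct]

/-- All small forms and all small starting points are easy. -/
def EasyB (d r : ℕ) (X Y : ℝ) (v : Fin d × Fin d → ℤ) : Prop :=
  ∀ (w : (Fin d → Fin (r + 1)) → ℤ) (x : Fin d → ℤ), Hom w → (∀ e, |(w e : ℝ)| ≤ X) →
    (∀ i, |(x i : ℝ)| ≤ X) → ev1 w x ≠ 0 →
    ∃ p : ℕ, p.Prime ∧ (p : ℝ) ≤ Y ∧
      (∀ i j, (p : ℤ) ∣ ((mtB v) ^ (p - 1)) i j - (1 : Matrix (Fin d) (Fin d) ℤ) i j) ∧
      ∀ n, ¬ (p : ℤ) ∣ ev1 w (((mtB v) ^ n).mulVec x)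

theorem mainB (d r : ℕ) (hr : 1 ≤ r) : ∃ A δ : ℝ, 0 < A ∧ 0 < δ ∧ ∃ H₀ : ℕ,
    ∀ H : ℕ, H₀ ≤ H → ∀ b : Fin d × Fin d → ℤ,
      (Nat.card {v : Fin d × Fin d → ℤ // v ∈ bx b H ∧
        ¬ EasyB d r ((H : ℝ) ^ δ) (Real.log H ^ A) v} : ℝ) ≤
        (2 * (H : ℝ) + 1) ^ Fintype.card (Fin d × Fin d) * (H : ℝ) ^ (-δ) := by
  classical
  set k : ℕ := 2 * (d * r + 1) with hk
  set M : ℕ := 4 * (2 * k) ^ d * d ^ d with hM
  have hMpos : 0 < M := by
    have h1 : 0 < d ^ d := by
      rcases Nat.eq_zero_or_pos d with h0 | h0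
      · subst h0; simp
      · exact pow_pos h0 _
    have h2 : 0 < (2 * k) ^ d := pow_pos (by omega) _
    positivity
  set p₀ : ℕ := 4 * d + (2 * k * d + 2) with hp₀
  obtain ⟨θ, hθ, hcount⟩ := primes_one k (by omega) p₀
  set P : ℕ → Prop := fun p => p.Prime ∧ p₀ ≤ p ∧ k ∣ p - 1 with hP
  set κ : ℝ := 1 / (M : ℕ) with hκ
  have hκ0 : 0 < κ := by positivity
  have hcast : ∀ (s : (Fin d → Fin (r + 1)) ⊕ Fin d → ℤ) (p : ℕ), ¬ (p : ℤ) ∣
      ev1 (fun e => s (Sum.inl e)) (fun i => s (Sum.inr i)) →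
      ev1 (fun e => (s (Sum.inl e) : ZMod p)) (fun i => (s (Sum.inr i) : ZMod p)) ≠ 0 := by
    intro s p h h0
    apply h
    rw [← ZMod.intCast_zmod_eq_zero_iff_dvd, ev1_cast]
    exact h0
  obtain ⟨A, δ, hA, hδ, H₁, hmain⟩ := sieve_union (Fin d × Fin d)
    ((Fin d → Fin (r + 1)) ⊕ Fin d) P κ θ ((r + 1 : ℕ) ^ d : ℝ) (1 + d * r) hκ0 hθ
    (one_le_pow₀ (by push_cast; linarith [Nat.cast_nonneg (α := ℝ) r])) hcount
    (fun p hp => hp.1)
    (fun s => ev1 (fun e => s (Sum.inl e)) (fun i => s (Sum.inr i)))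
    (fun s X hX h => abs_ev1 _ _ X hX (fun e => h _) (fun i => h _))
    (fun s p => {v | Hom (fun e => s (Sum.inl e)) →
      GoodB (p := p) ((p - 1) / k) (fun e => (s (Sum.inl e) : ZMod p))
      (fun i => (s (Sum.inr i) : ZMod p)) (mtB v)})
    (by
      intro s p hp hps
      have : Fact p.Prime := ⟨hp.1⟩
      have hT : k * ((p - 1) / k) = p - 1 := Nat.mul_div_cancel' hp.2.2
      have h3 : Fintype.card (Fin d × Fin d) = d * d := by simp
      by_cases hhom : Hom (fun e => s (Sum.inl e))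
      · have hhomp : Hom (fun e => (s (Sum.inl e) : ZMod p)) := by
          intro e he
          apply hhom e
          intro h0
          apply he
          simp only at h0 ⊢
          rw [h0, Int.cast_zero]
        have hx0 : (fun i => (s (Sum.inr i) : ZMod p)) ≠ 0 := by
          intro h0
          apply hcast s p hps
          rw [h0]
          unfold ev1
          apply Finset.sum_eq_zero
          intro e _
          by_cases he : ((s (Sum.inl e) : ℤ) : ZMod p) = 0
          · exact mul_eq_zero_of_left he _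
          · have h1 := hhomp e he
            have h2 : ∃ i, (e i : ℕ) ≠ 0 := by
              by_contra hcon
              push Not at hcon
              rw [Finset.sum_eq_zero (fun i _ => hcon i)] at h1
              omega
            obtain ⟨i, hi⟩ := h2
            rw [Finset.prod_eq_zero (Finset.mem_univ i), mul_zero]
            rw [Pi.zero_apply, zero_pow hi]
        have h1 := card_goodB p d r k ((p - 1) / k) hk hT (by have := hp.2.1; omega)
          (by have := hp.2.1; omega) _ hhomp _ hx0 (hcast s p hps)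
        have h2 : Nat.card {v : Fin d × Fin d → ZMod p | Hom (fun e => s (Sum.inl e)) →
            GoodB (p := p) ((p - 1) / k) (fun e => (s (Sum.inl e) : ZMod p))
            (fun i => (s (Sum.inr i) : ZMod p)) (mtB v)} =
            ((univ : Finset (Matrix (Fin d) (Fin d) (ZMod p))).filter
              (fun M => GoodB ((p - 1) / k) (fun e => (s (Sum.inl e) : ZMod p))
                (fun i => (s (Sum.inr i) : ZMod p)) M)).card := by
          rw [← Fintype.card_subtype, ← Nat.card_eq_fintype_card]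
          apply Nat.card_congr
          exact
            { toFun := fun v => ⟨mtB v.1, v.2 hhom⟩
              invFun := fun z => ⟨fun q => z.1 q.1 q.2, fun _ => z.2⟩
              left_inv := fun v => rfl
              right_inv := fun z => rfl }
        rw [h2, h3, hκ, one_div, inv_mul_le_iff₀ (by positivity)]
        exact_mod_cast h1
      · have h2 : Nat.card {v : Fin d × Fin d → ZMod p | Hom (fun e => s (Sum.inl e)) →
            GoodB (p := p) ((p - 1) / k) (fun e => (s (Sum.inl e) : ZMod p))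
            (fun i => (s (Sum.inr i) : ZMod p)) (mtB v)} = p ^ (d * d) := by
          have h4 : {v : Fin d × Fin d → ZMod p | Hom (fun e => s (Sum.inl e)) →
            GoodB (p := p) ((p - 1) / k) (fun e => (s (Sum.inl e) : ZMod p))
            (fun i => (s (Sum.inr i) : ZMod p)) (mtB v)} = Set.univ := by
            ext v
            simp [hhom]
          rw [h4, Nat.card_eq_fintype_card, Fintype.card_setUniv, Fintype.card_fun, ZMod.card, h3]
        rw [h2, h3, hκ, one_div, inv_mul_le_iff₀ (by positivity)]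
        have h5 : (1 : ℝ) ≤ (M : ℝ) := by exact_mod_cast hMpos
        push_cast
        have h6 : (0 : ℝ) ≤ (p : ℝ) ^ (d * d) := by positivity
        nlinarith)
  refine ⟨A, δ, hA, hδ, H₁, fun H hH b => ?_⟩
  refine le_trans ?_ (hmain H hH b)
  have hfin : Finite {v : Fin d × Fin d → ℤ // v ∈ bx b H ∧
      ∃ s : (Fin d → Fin (r + 1)) ⊕ Fin d → ℤ, (∀ j, |(s j : ℝ)| ≤ (H : ℝ) ^ δ) ∧
        ev1 (fun e => s (Sum.inl e)) (fun i => s (Sum.inr i)) ≠ 0 ∧
        ∀ p, P p → ¬ (p : ℤ) ∣ ev1 (fun e => s (Sum.inl e)) (fun i => s (Sum.inr i)) →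
          (p : ℝ) ≤ Real.log H ^ A → (fun i => (v i : ZMod p)) ∉
          ({v | Hom (fun e => s (Sum.inl e)) →
            GoodB (p := p) ((p - 1) / k) (fun e => (s (Sum.inl e) : ZMod p))
            (fun i => (s (Sum.inr i) : ZMod p)) (mtB v)} :
              Set (Fin d × Fin d → ZMod p))} :=
    Finite.of_injective (fun v => (⟨v.1, v.2.1⟩ : {v // v ∈ bx b H})) (by
      intro v w hvw
      exact Subtype.ext (congrArg (fun z : {v // v ∈ bx b H} => z.1) hvw))
  refine Nat.cast_le.2 (Nat.card_le_card_of_injective (fun v => ⟨v.1, v.2.1, ?_⟩) ?_)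
  · have h := v.2.2
    unfold EasyB at h
    push Not at h
    obtain ⟨w, x, hhom, hw, hx, hwx, hno⟩ := h
    refine ⟨Sum.elim w x, ?_, hwx, ?_⟩
    · rintro (e | i)
      · exact hw e
      · exact hx i
    · intro p hp _ hpA hG
      have h1 := goodB_cert v.1 x w p ((p - 1) / k) k (Nat.mul_div_cancel' hp.2.2) (hG hhom)
      obtain ⟨n, hn⟩ := hno p hp.1 hpA h1.1
      exact h1.2 n hn
  · intro v v' h
    exact Subtype.ext (congrArg (fun z => z.1) h)

end Pool.Agent.R851.SK
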