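import Pool.Agent.R851.SK.CntE
import Pool.Agent.R851.SK.Sv2
import Pool.Agent.R851.SK.MainA

set_option autoImplicit false

/-!
Almost all stochastic matrices with a given common denominator.
-/

namespace Pool.Agent.R851.SK

open Filter Finset Pool.Agent.TH838.SK Pool.Agent.H684R3.Smo Pool.Agent.H884R2.Sko
  Pool.Agent.H692R2.USS Matrix

theorem abs_sum_le' {d : ℕ} (x : Fin (d + 1) → ℤ) (X : ℝ) (hx : ∀ i, |(x i : ℝ)| ≤ X) :
    |((∑ i, x i : ℤ) : ℝ)| ≤ ((d + 1 : ℕ) : ℝ) * X := by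
  push_cast
  refine (Finset.abs_sum_le_sum_abs _ _).trans ?_
  calc ∑ i, |(x i : ℝ)| ≤ ∑ _i : Fin (d + 1), X := Finset.sum_le_sum fun i _ => hx i
    _ = _ := by
        rw [Finset.sum_const, Finset.card_univ, Fintype.card_fin, nsmul_eq_mul]
        push_cast
        ring

/-- size of the homogenised value of a polynomial -/
theorem abs_hval {d r : ℕ} (w : (Fin (d + 1) → Fin (r + 1)) → ℤ) (x : Fin (d + 1) → ℤ) (X : ℝ)
    (hX : 1 ≤ X) (hw : ∀ e, |(w e : ℝ)| ≤ X) (hx : ∀ i, |(x i : ℝ)| ≤ X) :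
    |((hval w x : ℤ) : ℝ)| ≤
      ((r + 1 : ℕ) ^ (d + 1) : ℝ) * ((d + 1 : ℕ) : ℝ) ^ ((d + 1) * r) * X ^ (1 + (d + 1) * r) := by
  unfold hval
  rw [Int.cast_sum]
  refine (Finset.abs_sum_le_sum_abs _ _).trans ?_
  have hd1 : (1 : ℝ) ≤ ((d + 1 : ℕ) : ℝ) := by push_cast; linarith [Nat.cast_nonneg (α := ℝ) d]
  have h1 : ∀ e : Fin (d + 1) → Fin (r + 1), |((w e * ((∏ i, x i ^ (e i : ℕ)) *
      (∑ i, x i) ^ ((d + 1) * r - ∑ i, (e i : ℕ))) : ℤ) : ℝ)| ≤
      ((d + 1 : ℕ) : ℝ) ^ ((d + 1) * r) * X ^ (1 + (d + 1) * r) := by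
    intro e
    rw [Int.cast_mul, Int.cast_mul, Int.cast_prod, abs_mul, abs_mul, Finset.abs_prod]
    have h2 : ∏ i, |((x i ^ (e i : ℕ) : ℤ) : ℝ)| ≤ X ^ (∑ i, (e i : ℕ)) := by
      calc ∏ i, |((x i ^ (e i : ℕ) : ℤ) : ℝ)| ≤ ∏ i : Fin (d + 1), X ^ (e i : ℕ) := by
            apply Finset.prod_le_prod (fun i _ => abs_nonneg _)
            intro i _
            rw [Int.cast_pow, abs_pow]
            exact pow_le_pow_left₀ (abs_nonneg _) (hx i) _
        _ = _ := by rw [Finset.prod_pow_eq_pow_sum]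
    have h3 : |(((∑ i, x i) ^ ((d + 1) * r - ∑ i, (e i : ℕ)) : ℤ) : ℝ)| ≤
        ((d + 1 : ℕ) : ℝ) ^ ((d + 1) * r) * X ^ ((d + 1) * r - ∑ i, (e i : ℕ)) := by
      rw [Int.cast_pow, abs_pow]
      calc |((∑ i, x i : ℤ) : ℝ)| ^ ((d + 1) * r - ∑ i, (e i : ℕ)) ≤
            (((d + 1 : ℕ) : ℝ) * X) ^ ((d + 1) * r - ∑ i, (e i : ℕ)) :=
            pow_le_pow_left₀ (abs_nonneg _) (abs_sum_le' x X hx) _
        _ = ((d + 1 : ℕ) : ℝ) ^ ((d + 1) * r - ∑ i, (e i : ℕ)) *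
            X ^ ((d + 1) * r - ∑ i, (e i : ℕ)) := mul_pow _ _ _
        _ ≤ _ := by
            apply mul_le_mul_of_nonneg_right _ (by positivity)
            exact pow_le_pow_right₀ hd1 (Nat.sub_le _ _)
    have h4 : X ^ (1 + (d + 1) * r) =
        X * (X ^ (∑ i, (e i : ℕ)) * X ^ ((d + 1) * r - ∑ i, (e i : ℕ))) := by
      rw [← pow_add, Nat.add_sub_cancel' (sum_le e), pow_add, pow_one]
    calc |(w e : ℝ)| * ((∏ i, |((x i ^ (e i : ℕ) : ℤ) : ℝ)|) *
          |(((∑ i, x i) ^ ((d + 1) * r - ∑ i, (e i : ℕ)) : ℤ) : ℝ)|) ≤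
          X * (X ^ (∑ i, (e i : ℕ)) * (((d + 1 : ℕ) : ℝ) ^ ((d + 1) * r) *
            X ^ ((d + 1) * r - ∑ i, (e i : ℕ)))) := by
          apply mul_le_mul (hw e) _ (by positivity) (by linarith)
          apply mul_le_mul h2 h3 (abs_nonneg _) (by positivity)
      _ = _ := by rw [h4]; ring
  calc _ ≤ ∑ _e : Fin (d + 1) → Fin (r + 1),
        ((d + 1 : ℕ) : ℝ) ^ ((d + 1) * r) * X ^ (1 + (d + 1) * r) :=
        Finset.sum_le_sum fun e _ => h1 e
    _ = _ := by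
        rw [Finset.sum_const, Finset.card_univ, Fintype.card_fun, Fintype.card_fin,
          Fintype.card_fin, nsmul_eq_mul]
        push_cast
        ring

theorem hval_cast {d r : ℕ} (p : ℕ) (w : (Fin (d + 1) → Fin (r + 1)) → ℤ)
    (x : Fin (d + 1) → ℤ) : ((hval w x : ℤ) : ZMod p) =
      hval (fun e => (w e : ZMod p)) (fun i => (x i : ZMod p)) := by
  simp [hval]

theorem tm_cast {d : ℕ} (p : ℕ) (a : Fin (d + 1) × Fin d → ℤ) (N : ℤ) (n : ℕ) :
    tm (dat (fun q => (a q : ZMod p)) (N : ZMod p)) ^ n =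
      (tm (dat a N) ^ n).map (Int.castRingHom (ZMod p)) := by
  rw [Matrix.map_pow]
  congr 1
  ext i j
  refine Fin.lastCases ?_ (fun j => ?_) j
  · rw [Matrix.map_apply, tm_last, tm_last]
    simp [dat]
  · rw [Matrix.map_apply, tm_castSucc, tm_castSucc]
    simp [dat]

theorem vecMul_cast {d : ℕ} (p : ℕ) (a : Fin (d + 1) × Fin d → ℤ) (N : ℤ)
    (x : Fin (d + 1) → ℤ) (n : ℕ) :
    (fun i => ((Matrix.vecMul x (tm (dat a N) ^ n) i : ℤ) : ZMod p)) =
      Matrix.vecMul (fun i => (x i : ZMod p))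
        (tm (dat (fun q => (a q : ZMod p)) (N : ZMod p)) ^ n) := by
  rw [tm_cast]
  funext i
  simp [Matrix.vecMul, dotProduct]

/-- All small polynomials and all small initial distributions are easy. -/
def EasyC (d r : ℕ) (X Y : ℝ) (N : ℤ) (a : Fin (d + 1) × Fin d → ℤ) : Prop :=
  ∀ (w : (Fin (d + 1) → Fin (r + 1)) → ℤ) (x : Fin (d + 1) → ℤ), (∀ e, |(w e : ℝ)| ≤ X) →
    (∀ i, |(x i : ℝ)| ≤ X) → ∑ i, x i ≠ 0 → hval w x ≠ 0 →
    ∃ p : ℕ, p.Prime ∧ (p : ℝ) ≤ Y ∧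
      ∀ n, ¬ (p : ℤ) ∣ hval w (Matrix.vecMul x (tm (dat a N) ^ n)) ∧
        ∀ i, (p : ℤ) ∣ Matrix.vecMul x (tm (dat a N) ^ (n + (p - 1))) i -
          Matrix.vecMul x (tm (dat a N) ^ n) i

theorem goodE_cert {d r : ℕ} (a : Fin (d + 1) × Fin d → ℤ) (N : ℤ) (x : Fin (d + 1) → ℤ)
    (w : (Fin (d + 1) → Fin (r + 1)) → ℤ) (p : ℕ)
    (h : GoodE (p := p) (fun e => (w e : ZMod p)) (fun i => (x i : ZMod p)) (N : ZMod p)
      (fun q => (a q : ZMod p))) (n : ℕ) :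
    ¬ (p : ℤ) ∣ hval w (Matrix.vecMul x (tm (dat a N) ^ n)) ∧
        ∀ i, (p : ℤ) ∣ Matrix.vecMul x (tm (dat a N) ^ (n + (p - 1))) i -
          Matrix.vecMul x (tm (dat a N) ^ n) i := by
  constructor
  · intro hn
    rw [← ZMod.intCast_zmod_eq_zero_iff_dvd, hval_cast, vecMul_cast] at hn
    exact h.2 n hn
  · intro i
    rw [← ZMod.intCast_zmod_eq_zero_iff_dvd, Int.cast_sub]
    have h1 := congrFun (vecMul_cast p a N x (n + (p - 1))) i
    have h2 := congrFun (vecMul_cast p a N x n) i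
    rw [h1, h2, h.1, sub_self]

theorem mainC (d r B₀ : ℕ) : ∃ A δ : ℝ, 0 < A ∧ 0 < δ ∧ ∃ H₀ : ℕ,
    ∀ H : ℕ, H₀ ≤ H → ∀ N : ℤ, N ≠ 0 → |(N : ℝ)| ≤ (H : ℝ) ^ B₀ → ∀ b : Fin (d + 1) × Fin d → ℤ,
      (Nat.card {v : Fin (d + 1) × Fin d → ℤ // v ∈ bx b H ∧
        ¬ EasyC d r ((H : ℝ) ^ δ) (Real.log H ^ A) N v} : ℝ) ≤
        (2 * (H : ℝ) + 1) ^ Fintype.card (Fin (d + 1) × Fin d) * (H : ℝ) ^ (-δ) := by
  classical
  set k : ℕ := 2 * ((d + 1) * r + 1) with hk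
  set M : ℕ := 4 * (2 * k) ^ d * d ^ d with hM
  have hMpos : 0 < M := by
    have h1 : 0 < d ^ d := by
      rcases Nat.eq_zero_or_pos d with h0 | h0
      · subst h0; simp
      · exact pow_pos h0 _
    have h2 : 0 < (2 * k) ^ d := pow_pos (by omega) _
    positivity
  set p₀ : ℕ := 4 * d + (2 * k * d + 2) with hp₀
  obtain ⟨θ, hθ, hcount⟩ := primes_one k (by omega) p₀
  set P : ℕ → Prop := fun p => p.Prime ∧ p₀ ≤ p ∧ k ∣ p - 1 with hP
  set κ : ℝ := 1 / (M : ℕ) with hκ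
  have hκ0 : 0 < κ := by positivity
  have hd1 : (1 : ℝ) ≤ ((d + 1 : ℕ) : ℝ) := by push_cast; linarith [Nat.cast_nonneg (α := ℝ) d]
  have hr1 : (1 : ℝ) ≤ ((r + 1 : ℕ) : ℝ) := by push_cast; linarith [Nat.cast_nonneg (α := ℝ) r]
  obtain ⟨A, δ, hA, hδ, H₁, hmain⟩ := sieve_union' {N : ℤ // N ≠ 0} (Fin (d + 1) × Fin d)
    ((Fin (d + 1) → Fin (r + 1)) ⊕ Fin (d + 1)) P κ θ
    (((r + 1 : ℕ) ^ (d + 1) : ℝ) * ((d + 1 : ℕ) : ℝ) ^ ((d + 1) * r) * ((d + 1 : ℕ) : ℝ))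
    (1 + (d + 1) * r + 1) B₀ hκ0 hθ
    (one_le_mul_of_one_le_of_one_le (one_le_mul_of_one_le_of_one_le (one_le_pow₀ hr1)
      (one_le_pow₀ hd1)) hd1) hcount
    (fun p hp => hp.1)
    (fun N s => hval (fun e => s (Sum.inl e)) (fun i => s (Sum.inr i)) *
      (∑ i, s (Sum.inr i)) * N.1)
    (fun N => |(N.1 : ℝ)|)
    (fun N => by
      have := Int.one_le_abs N.2
      exact_mod_cast this)
    (fun N s X hX h => by
      push_cast
      rw [abs_mul, abs_mul]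
      apply mul_le_mul_of_nonneg_right _ (abs_nonneg _)
      have h1 := abs_hval (fun e => s (Sum.inl e)) (fun i => s (Sum.inr i)) X hX
        (fun e => h _) (fun i => h _)
      have h2 := abs_sum_le' (fun i => s (Sum.inr i)) X (fun i => h _)
      push_cast at h1 h2 ⊢
      calc _ ≤ _ := mul_le_mul h1 h2 (abs_nonneg _) (by positivity)
        _ = _ := by rw [pow_succ X]; ring)
    (fun N s p => {a | GoodE (p := p) (fun e => (s (Sum.inl e) : ZMod p))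
      (fun i => (s (Sum.inr i) : ZMod p)) (N.1 : ZMod p) a})
    (by
      intro N s p hp hps
      have : Fact p.Prime := ⟨hp.1⟩
      have hT : k * ((p - 1) / k) = p - 1 := Nat.mul_div_cancel' hp.2.2
      have hN : ((N.1 : ℤ) : ZMod p) ≠ 0 := by
        intro h0
        apply hps
        rw [ZMod.intCast_zmod_eq_zero_iff_dvd] at h0
        exact Dvd.dvd.mul_left h0 _
      have hσ : ∑ i, ((s (Sum.inr i) : ℤ) : ZMod p) ≠ 0 := by
        intro h0
        apply hps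
        rw [← Int.cast_sum, ZMod.intCast_zmod_eq_zero_iff_dvd] at h0
        exact Dvd.dvd.mul_right (Dvd.dvd.mul_left h0 _) _
      have hw : hval (fun e => (s (Sum.inl e) : ZMod p)) (fun i => (s (Sum.inr i) : ZMod p)) ≠
          0 := by
        intro h0
        apply hps
        rw [← hval_cast, ZMod.intCast_zmod_eq_zero_iff_dvd] at h0
        exact Dvd.dvd.mul_right (Dvd.dvd.mul_right h0 _) _
      have h1 := card_goodE p d r k ((p - 1) / k) hk hT (by have := hp.2.1; omega)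
        (by have := hp.2.1; omega) _ _ hσ hw _ hN
      have h2 : Nat.card {a : Fin (d + 1) × Fin d → ZMod p |
          GoodE (p := p) (fun e => (s (Sum.inl e) : ZMod p))
          (fun i => (s (Sum.inr i) : ZMod p)) (N.1 : ZMod p) a} =
          ((univ : Finset (Fin (d + 1) × Fin d → ZMod p)).filter
            (fun a => GoodE (fun e => (s (Sum.inl e) : ZMod p))
              (fun i => (s (Sum.inr i) : ZMod p)) (N.1 : ZMod p) a)).card := by
        rw [← Fintype.card_subtype, ← Nat.card_eq_fintype_card]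
        rfl
      have h3 : Fintype.card (Fin (d + 1) × Fin d) = (d + 1) * d := by simp
      rw [h2, h3, hκ, one_div, inv_mul_le_iff₀ (by positivity)]
      exact_mod_cast h1)
  refine ⟨A, δ, hA, hδ, H₁, fun H hH N hN hNH b => ?_⟩
  refine le_trans ?_ (hmain H hH ⟨N, hN⟩ hNH b)
  have hfin : Finite {v : Fin (d + 1) × Fin d → ℤ // v ∈ bx b H ∧
      ∃ s : (Fin (d + 1) → Fin (r + 1)) ⊕ Fin (d + 1) → ℤ,
        (∀ j, |(s j : ℝ)| ≤ (H : ℝ) ^ δ) ∧
        hval (fun e => s (Sum.inl e)) (fun i => s (Sum.inr i)) *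
          (∑ i, s (Sum.inr i)) * N ≠ 0 ∧
        ∀ p, P p → ¬ (p : ℤ) ∣ hval (fun e => s (Sum.inl e)) (fun i => s (Sum.inr i)) *
          (∑ i, s (Sum.inr i)) * N →
          (p : ℝ) ≤ Real.log H ^ A → (fun i => (v i : ZMod p)) ∉
          ({a | GoodE (p := p) (fun e => (s (Sum.inl e) : ZMod p))
            (fun i => (s (Sum.inr i) : ZMod p)) (N : ZMod p) a} :
              Set (Fin (d + 1) × Fin d → ZMod p))} :=
    Finite.of_injective (fun v => (⟨v.1, v.2.1⟩ : {v // v ∈ bx b H})) (by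
      intro v w hvw
      exact Subtype.ext (congrArg (fun z : {v // v ∈ bx b H} => z.1) hvw))
  refine Nat.cast_le.2 (Nat.card_le_card_of_injective (fun v => ⟨v.1, v.2.1, ?_⟩) ?_)
  · have h := v.2.2
    unfold EasyC at h
    push Not at h
    obtain ⟨w, x, hw, hx, hσ, hwx, hno⟩ := h
    refine ⟨Sum.elim w x, ?_, mul_ne_zero (mul_ne_zero hwx hσ) hN, ?_⟩
    · rintro (e | i)
      · exact hw e
      · exact hx i
    · intro p hp _ hpA hG
      obtain ⟨n, hn⟩ := hno p hp.1 hpA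
      have h1 := goodE_cert v.1 N x w p hG n
      obtain ⟨i, hi⟩ := hn h1.1
      exact hi (h1.2 i)
  · intro v v' h
    exact Subtype.ext (congrArg (fun z => z.1) h)

end Pool.Agent.R851.SK
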