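import Pool.Agent.R851.SK.CntF
import Pool.Agent.R851.SK.Sv

set_option autoImplicit false

/-!
Almost all coefficient vectors: all small nonzero initial values.
-/

namespace Pool.Agent.R851.SK

open Filter Finset Pool.Agent.TH838.SK Pool.Agent.H684R3.Smo Pool.Agent.H884R2.Sko
  Pool.Agent.H692R2.USS

theorem goodF_cert {d : ℕ} (c a : Fin d → ℤ) (u : ℕ → ℤ) (hu : IsSeq c a u) (p : ℕ)
    (h : GoodF (p := p) (fun i => (a i : ZMod p)) (fun i => ((c (Fin.rev i) : ℤ) : ZMod p)))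
    (n : ℕ) : ¬ (p : ℤ) ∣ u n ∧ (p : ℤ) ∣ u (n + (p - 1)) - u n := by
  have hv : ∀ n, ((u n : ℤ) : ZMod p) =
      seq (fun i => ((c (Fin.rev i) : ℤ) : ZMod p)) (fun i => (a i : ZMod p)) n := by
    intro n
    rw [(isSeq_iff c a u).1 hu n]
    have h2 := map_seq (Int.castRingHom (ZMod p)) (fun i => c (Fin.rev i)) a n
    rw [eq_intCast] at h2
    exact h2
  constructor
  · intro hn
    rw [← ZMod.intCast_zmod_eq_zero_iff_dvd, hv] at hn
    exact h.2 n hn
  · rw [← ZMod.intCast_zmod_eq_zero_iff_dvd, Int.cast_sub, hv, hv, h.1, sub_self]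

/-- All small nonzero initial values are easy. -/
def EasyF (d : ℕ) (X Y : ℝ) (c : Fin d → ℤ) : Prop :=
  ∀ (a : Fin d → ℤ) (u : ℕ → ℤ), (∀ i, a i ≠ 0) → (∀ i, |(a i : ℝ)| ≤ X) → IsSeq c a u →
    ∃ p : ℕ, p.Prime ∧ (p : ℝ) ≤ Y ∧ ∀ n, ¬ (p : ℤ) ∣ u n ∧ (p : ℤ) ∣ u (n + (p - 1)) - u n

theorem mainF (d : ℕ) (hd : 1 ≤ d) : ∃ A δ : ℝ, 0 < A ∧ 0 < δ ∧ ∃ H₀ : ℕ,
    ∀ H : ℕ, H₀ ≤ H → ∀ b : Fin d → ℤ,
      (Nat.card {c : Fin d → ℤ // c ∈ bx b H ∧
        ¬ EasyF d ((H : ℝ) ^ δ) (Real.log H ^ A) c} : ℝ) ≤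
        (2 * (H : ℝ) + 1) ^ Fintype.card (Fin d) * (H : ℝ) ^ (-δ) := by
  classical
  set k : ℕ := 2 * d with hk
  set M : ℕ := 4 * (2 * k) ^ (d - 1) * d.factorial with hM
  have hMpos : 0 < M := by
    have h2 : 0 < (2 * k) ^ (d - 1) := pow_pos (by omega) _
    have h1 := Nat.factorial_pos d
    positivity
  set p₀ : ℕ := 2 * k * d + 2 with hp₀
  obtain ⟨θ, hθ, hcount⟩ := primes_one k (by omega) p₀
  set P : ℕ → Prop := fun p => p.Prime ∧ p₀ ≤ p ∧ k ∣ p - 1 with hP
  set κ : ℝ := 1 / (M : ℕ) with hκ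
  have hκ0 : 0 < κ := by positivity
  obtain ⟨A, δ, hA, hδ, H₁, hmain⟩ := sieve_union (Fin d) (Fin d) P κ θ 1 d hκ0 hθ le_rfl hcount
    (fun p hp => hp.1) (fun s => ∏ i, s i)
    (fun s X hX h => by
      push_cast
      rw [Finset.abs_prod, one_mul]
      calc ∏ i, |(s i : ℝ)| ≤ ∏ _i : Fin d, X :=
            Finset.prod_le_prod (fun i _ => abs_nonneg _) fun i _ => h i
        _ = X ^ d := by rw [Finset.prod_const, Finset.card_univ, Fintype.card_fin])
    (fun s p => {c | GoodF (p := p) (fun i => (s i : ZMod p)) (fun i => c (Fin.rev i))})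
    (by
      intro s p hp hps
      have : Fact p.Prime := ⟨hp.1⟩
      have hT : k * ((p - 1) / k) = p - 1 := Nat.mul_div_cancel' hp.2.2
      have ha : ∀ i, ((s i : ℤ) : ZMod p) ≠ 0 := by
        intro i h0
        apply hps
        rw [ZMod.intCast_zmod_eq_zero_iff_dvd] at h0
        exact h0.trans (Finset.dvd_prod_of_mem s (Finset.mem_univ i))
      have h1 := card_goodF p d k ((p - 1) / k) hd hk hT hp.2.1 (fun i => (s i : ZMod p)) ha
      have h2 : Nat.card {c : Fin d → ZMod p |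
          GoodF (p := p) (fun i => (s i : ZMod p)) (fun i => c (Fin.rev i))} =
          ((univ : Finset (Fin d → ZMod p)).filter
            (fun c => GoodF (fun i => (s i : ZMod p)) c)).card := by
        rw [← Fintype.card_subtype, ← Nat.card_eq_fintype_card]
        apply Nat.card_congr
        exact
          { toFun := fun c => ⟨fun i => c.1 (Fin.rev i), c.2⟩
            invFun := fun c => ⟨fun i => c.1 (Fin.rev i), by
              have := c.2
              simp only [Set.mem_ofPred_eq, Fin.rev_rev]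
              exact this⟩
            left_inv := fun c => by
              apply Subtype.ext
              funext i
              simp
            right_inv := fun c => by
              apply Subtype.ext
              funext i
              simp }
      have h3 : Fintype.card (Fin d) = d := by simp
      rw [h2, h3, hκ, one_div, inv_mul_le_iff₀ (by positivity)]
      exact_mod_cast h1)
  refine ⟨A, δ, hA, hδ, H₁, fun H hH b => ?_⟩
  refine le_trans ?_ (hmain H hH b)
  have hfin : Finite {v : Fin d → ℤ // v ∈ bx b H ∧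
      ∃ s : Fin d → ℤ, (∀ j, |(s j : ℝ)| ≤ (H : ℝ) ^ δ) ∧ ∏ i, s i ≠ 0 ∧
        ∀ p, P p → ¬ (p : ℤ) ∣ ∏ i, s i →
          (p : ℝ) ≤ Real.log H ^ A → (fun i => (v i : ZMod p)) ∉
          ({c | GoodF (p := p) (fun i => (s i : ZMod p)) (fun i => c (Fin.rev i))} :
              Set (Fin d → ZMod p))} :=
    Finite.of_injective (fun v => (⟨v.1, v.2.1⟩ : {v // v ∈ bx b H})) (by
      intro v w hvw
      exact Subtype.ext (congrArg (fun z : {v // v ∈ bx b H} => z.1) hvw))
  refine Nat.cast_le.2 (Nat.card_le_card_of_injective (fun v => ⟨v.1, v.2.1, ?_⟩) ?_)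
  · have h := v.2.2
    unfold EasyF at h
    push Not at h
    obtain ⟨a, u, ha, haX, hu, hno⟩ := h
    refine ⟨a, haX, Finset.prod_ne_zero_iff.2 fun i _ => ha i, ?_⟩
    intro p hp _ hpA hG
    obtain ⟨n, hn⟩ := hno p hp.1 hpA
    have h1 := goodF_cert v.1 a u hu p hG n
    exact hn h1.1 h1.2
  · intro v v' h
    exact Subtype.ext (congrArg (fun z => z.1) h)

end Pool.Agent.R851.SK
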