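import Pool.Agent.R851.SK.MainA

set_option autoImplicit false

/-!
# The Skolem Problem for random affine maps, all small starting points and all small guards

The affine map `Φ(y) = M y + b` of `ℤ^d` runs through a cube of side `2 H + 1` with any centre (in
the space of the `d ^ 2 + d` entries of `M` and `b`). For all but a proportion `H ^ (-δ)` of the
maps: for ALL starting points `x` with entries at most `H ^ δ` and ALL polynomials `g`, of degree at
most `r` in each of the `d` variables and with integer coefficients at most `H ^ δ`, such that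
`g(x) ≠ 0`, the sequence `g(Φ^n(x))` has no zero. In other words no loop

    `y := x; while g(y) ≠ 0 do y := M y + b`

whose guard holds at the beginning ever terminates; for linear `g` this says that the orbit of `x`
never meets the hyperplane `g = 0`. There is a prime `p ≤ (log H) ^ A` which divides no term of the
sequence, and modulo which the orbit itself has period `p - 1`, and the algorithm recognises the
linear recurrence sequence `g(Φ^n(x))`.

Here the starting point may be fixed (or chosen with knowledge of `M`, `b`), and only the map is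
random; the starting results have random coefficients and random initial values of recurrences.

Proof idea. Let `k = 2 (d r + 1)` and let `p ≡ 1` modulo `k` be a prime which does not divide `g(x)`.
Let `G ∈ GL_d(F_p)` and let `D` be a diagonal matrix, whose entries are distinct `k`-th powers
different from `1`; these pairs give maps with matrix `M = G D G⁻¹` and fixed point `z = x - G 1`,
each at most `d ^ d` times, where `1` is the vector of ones. Then `Φ^n(x) = x + G (D^n 1 - 1)`. For
fixed `D` and `n` either `D^n = 1`, when `Φ^n(x) = x` is not on the hypersurface, or the point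
`x + G (D^n 1 - 1)` is uniformly distributed, when `G` runs through all the matrices, and it is on
the hypersurface for a proportion at most `d r / p` of them. There are at most `(p - 1) / k` values
of `n` to consider, hence a positive proportion of all the maps modulo `p` is good. The sieve,
without the at most `C log H` primes dividing `g(x)`, and a union bound over the pairs `(g, x)`
give the result.
-/

namespace Pool.Agent.R851.SK.RandomAffineLoops

open Pool.Agent.H684R3.Smo Pool.Agent.H884R2.Sko Pool.Agent.H692R2.USS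

/-- The value at `y` of the polynomial with the coefficients `w`, of degree at most `r` in each
variable: `∑ w_e y^e`. -/
def value {d r : ℕ} (w : (Fin d → Fin (r + 1)) → ℤ) (y : Fin d → ℤ) : ℤ :=
  ∑ e, w e * ∏ i, y i ^ (e i : ℕ)

/-- `v` consists of the entries of the matrix `M` and of the vector `b` of an affine map
`Φ(y) = M y + b`. For every polynomial `g` of degree at most `r` in each variable with coefficients
of absolute value at most `X`, and every point `x` with entries at most `X`, with `g(x) ≠ 0`, and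
the orbit `y n = Φ^n(x)`: the sequence `g(y n)` has no zero; some prime `p ≤ Y` divides no term
`g(y n)`, and the orbit has period `p - 1` modulo `p`; and `f` returns `true` on every input which
codes the sequence `g(y n)` as a linear recurrence sequence. -/
def Easy (f : ℕ × (List (ℕ × ℕ) × List (ℕ × ℕ)) → Bool) (d r : ℕ) (X Y : ℝ)
    (v : (Fin d × Fin d) ⊕ Fin d → ℤ) : Prop :=
  ∀ (w : (Fin d → Fin (r + 1)) → ℤ) (x : Fin d → ℤ), (∀ e, |(w e : ℝ)| ≤ X) →
    (∀ i, |(x i : ℝ)| ≤ X) → value w x ≠ 0 →
    ∀ y : ℕ → Fin d → ℤ, y 0 = x →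
      (∀ n i, y (n + 1) i = ∑ j, v (Sum.inl (i, j)) * y n j + v (Sum.inr i)) →
      (∀ n, value w (y n) ≠ 0) ∧
      (∃ p : ℕ, p.Prime ∧ (p : ℝ) ≤ Y ∧
        ∀ n, ¬ (p : ℤ) ∣ value w (y n) ∧ ∀ i, (p : ℤ) ∣ y (n + (p - 1)) i - y n i) ∧
      ∀ z, IsLRS z (fun n => value w (y n)) → f (⌊Y⌋₊, z) = true

theorem result :
    -- one total computable function, which reads all linear recurrence sequences and never errs
    ∃ f : ℕ × (List (ℕ × ℕ) × List (ℕ × ℕ)) → Bool, Computable f ∧
      (∀ (y : ℕ) (z : List (ℕ × ℕ) × List (ℕ × ℕ)) (v : ℕ → ℤ), IsLRS z v → f (y, z) = true →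
        ∀ n, v n ≠ 0) ∧
      -- all dimensions, all degrees
      ∀ d r : ℕ, ∃ A δ : ℝ, 0 < A ∧ 0 < δ ∧ ∃ H₀ : ℕ, ∀ H : ℕ, H₀ ≤ H →
        ∀ c : (Fin d × Fin d) ⊕ Fin d → ℤ,
          (Nat.card {v : (Fin d × Fin d) ⊕ Fin d → ℤ // (∀ i, |v i - c i| ≤ (H : ℤ)) ∧
            ¬ Easy f d r ((H : ℝ) ^ δ) (Real.log H ^ A) v} : ℝ) ≤
            (H : ℝ) ^ (-δ) * (2 * H + 1 : ℝ) ^ (d ^ 2 + d) := by
  obtain ⟨f, hf, hfe⟩ := t10
  refine ⟨f, hf, fun y z v hv ht n hn => ?_, fun d r => ?_⟩
  · obtain ⟨q, _, _, hq⟩ := (hfe y z v hv).1 ht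
    apply hq n
    rw [hn]
    exact dvd_zero _
  · obtain ⟨A, δ, hA, hδ, H₀, h⟩ := Pool.Agent.R851.SK.mainA d r
    refine ⟨A, δ, hA, hδ, H₀, fun H hH c => ?_⟩
    have h1 := h H hH c
    have hcard : Fintype.card ((Fin d × Fin d) ⊕ Fin d) = d ^ 2 + d := by
      simp [sq]
    rw [mul_comm, ← hcard]
    refine le_trans ?_ h1
    have hmem : ∀ x : (Fin d × Fin d) ⊕ Fin d → ℤ, (∀ i, |x i - c i| ≤ (H : ℤ)) →
        x ∈ bx c H := by
      intro x hx
      unfold bx
      rw [Fintype.mem_piFinset]
      intro i
      rw [Finset.mem_Icc]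
      have := abs_le.1 (hx i)
      constructor <;> linarith [this.1, this.2]
    have heasy : ∀ v : (Fin d × Fin d) ⊕ Fin d → ℤ,
        Pool.Agent.R851.SK.EasyA d r ((H : ℝ) ^ δ) (Real.log H ^ A) v →
        Easy f d r ((H : ℝ) ^ δ) (Real.log H ^ A) v := by
      intro v hv w x hw hx hwx y hy0 hy
      obtain ⟨p, hp, hpY, hpv⟩ := hv w x hw hx hwx y ⟨hy0, hy⟩
      refine ⟨fun n hn => ?_, ⟨p, hp, hpY, hpv⟩, fun z hz => ?_⟩
      · apply (hpv n).1
        have h2 : Pool.Agent.TH838.SK.ev1 w (y n) = 0 := hn
        rw [h2]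
        exact dvd_zero _
      · rw [hfe _ _ _ hz]
        exact ⟨p, Nat.le_floor hpY, hp, fun n => (hpv n).1⟩
    have hfin := finite_sub c H
      (fun v => ¬ Pool.Agent.R851.SK.EasyA d r ((H : ℝ) ^ δ) (Real.log H ^ A) v)
    have hle := Nat.card_le_card_of_injective
      (fun x : {v : (Fin d × Fin d) ⊕ Fin d → ℤ // (∀ i, |v i - c i| ≤ (H : ℤ)) ∧
          ¬ Easy f d r ((H : ℝ) ^ δ) (Real.log H ^ A) v} =>
        (⟨x.1, hmem x.1 x.2.1, fun h => x.2.2 (heasy x.1 h)⟩ :
          {v : (Fin d × Fin d) ⊕ Fin d → ℤ // v ∈ bx c H ∧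
            ¬ Pool.Agent.R851.SK.EasyA d r ((H : ℝ) ^ δ) (Real.log H ^ A) v}))
      (fun x y hxy => Subtype.ext (congrArg (fun z => z.1) hxy))
    exact_mod_cast hle

end Pool.Agent.R851.SK.RandomAffineLoops
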