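import Pool.Agent.R851.SK.MainB

set_option autoImplicit false

/-!
# The Skolem Problem for random matrices, all small vectors and all small forms

In its matrix form the Skolem Problem asks, given an integer `d × d` matrix `M` and integer vectors
`x, h`, whether some power `M^n` maps `x` into the hyperplane `h^⊥`. Here only the matrix `M` is
random: it runs through a cube of side `2 H + 1` with any centre. For all but a proportion
`H ^ (-δ)` of the matrices, ALL pairs of vectors `x, h` with entries at most `H ^ δ` are instances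
with a negative answer, except for those with `h · x = 0`, when `n = 0` is a solution. This is the
case `r = 1`. In general `h` is replaced by all forms `g` of degree `r` in `d` variables with
coefficients at most `H ^ δ`: if `g(x) ≠ 0`, then `g(M^n x) ≠ 0` for all `n`. For instance, for
almost all `M` no diagonal entry of a power of `M` is zero.

There is a prime `p ≤ (log H) ^ A` which divides no number `g(M^n x)`, and such that `M^(p-1)` is
the identity modulo `p`, and the algorithm recognises the linear recurrence sequence `g(M^n x)`.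

Proof idea. Let `k = 2 (d r + 1)` and let `p ≡ 1` modulo `k` be a prime which does not divide `g(x)`.
Let `G` be an invertible matrix modulo `p`, the columns of which have the sum `x`, and let `D` be a
diagonal matrix, whose entries are distinct `k`-th powers; these pairs give matrices
`M = G D G⁻¹`, each at most `d ^ d` times, and `M^n x = G (D^n 1)`, where `1` is the vector of ones.
For fixed `D` and `n` either `D^n = μ` is scalar, when `g(M^n x) = μ^r g(x)` is not zero, or the
point `G (D^n 1)` is uniformly distributed, when `G` runs through all the matrices with the sum `x`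
of the columns, and it is on the hypersurface `g = 0` for a proportion at most `d r / p` of them.
There are at most `(p - 1) / k` values of `n` to consider, hence a positive proportion of all the
matrices modulo `p` is good. The sieve, without the at most `C log H` primes dividing `g(x)`, and
a union bound over the pairs `(g, x)` give the result.
-/

namespace Pool.Agent.R851.SK.RandomMatrices

open Pool.Agent.H684R3.Smo Pool.Agent.H884R2.Sko Pool.Agent.H692R2.USS

/-- The value at `y` of the polynomial with the coefficients `w`, of degree at most `r` in each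
variable: `∑ w_e y^e`. -/
def value {d r : ℕ} (w : (Fin d → Fin (r + 1)) → ℤ) (y : Fin d → ℤ) : ℤ :=
  ∑ e, w e * ∏ i, y i ^ (e i : ℕ)

/-- The polynomial with the coefficients `w` is a form (homogeneous polynomial) of degree `r`. -/
def IsForm {d r : ℕ} (w : (Fin d → Fin (r + 1)) → ℤ) : Prop :=
  ∀ e, w e ≠ 0 → ∑ i, (e i : ℕ) = r

/-- For every form `g` of degree `r` with integer coefficients of absolute value at most `X`, and
every vector `x` with entries at most `X`, with `g(x) ≠ 0`: the sequence `g(M^n x)` has no zero;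
some prime `p ≤ Y` divides no term `g(M^n x)`, and `M^(p-1)` is the identity modulo `p`; and `f`
returns `true` on every input which codes the sequence `g(M^n x)` as a linear recurrence
sequence. -/
def Easy (f : ℕ × (List (ℕ × ℕ) × List (ℕ × ℕ)) → Bool) (d r : ℕ) (X Y : ℝ)
    (M : Matrix (Fin d) (Fin d) ℤ) : Prop :=
  ∀ (w : (Fin d → Fin (r + 1)) → ℤ) (x : Fin d → ℤ), IsForm w → (∀ e, |(w e : ℝ)| ≤ X) →
    (∀ i, |(x i : ℝ)| ≤ X) → value w x ≠ 0 →
      (∀ n, value w ((M ^ n).mulVec x) ≠ 0) ∧
      (∃ p : ℕ, p.Prime ∧ (p : ℝ) ≤ Y ∧ (∀ n, ¬ (p : ℤ) ∣ value w ((M ^ n).mulVec x)) ∧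
        ∀ i j, (p : ℤ) ∣ (M ^ (p - 1)) i j - (1 : Matrix (Fin d) (Fin d) ℤ) i j) ∧
      ∀ z, IsLRS z (fun n => value w ((M ^ n).mulVec x)) → f (⌊Y⌋₊, z) = true

theorem result :
    -- one total computable function, which reads all linear recurrence sequences and never errs
    ∃ f : ℕ × (List (ℕ × ℕ) × List (ℕ × ℕ)) → Bool, Computable f ∧
      (∀ (y : ℕ) (z : List (ℕ × ℕ) × List (ℕ × ℕ)) (v : ℕ → ℤ), IsLRS z v → f (y, z) = true →
        ∀ n, v n ≠ 0) ∧
      -- all dimensions, all degrees
      ∀ d r : ℕ, 1 ≤ r → ∃ A δ : ℝ, 0 < A ∧ 0 < δ ∧ ∃ H₀ : ℕ, ∀ H : ℕ, H₀ ≤ H →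
        ∀ C : Matrix (Fin d) (Fin d) ℤ,
          (Nat.card {M : Matrix (Fin d) (Fin d) ℤ // (∀ i j, |M i j - C i j| ≤ (H : ℤ)) ∧
            ¬ Easy f d r ((H : ℝ) ^ δ) (Real.log H ^ A) M} : ℝ) ≤
            (H : ℝ) ^ (-δ) * (2 * H + 1 : ℝ) ^ (d ^ 2) := by
  obtain ⟨f, hf, hfe⟩ := t10
  refine ⟨f, hf, fun y z v hv ht n hn => ?_, fun d r hr => ?_⟩
  · obtain ⟨q, _, _, hq⟩ := (hfe y z v hv).1 ht
    apply hq n
    rw [hn]
    exact dvd_zero _
  · obtain ⟨A, δ, hA, hδ, H₀, h⟩ := Pool.Agent.R851.SK.mainB d r hr
    refine ⟨A, δ, hA, hδ, H₀, fun H hH C => ?_⟩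
    have h1 := h H hH (fun q => C q.1 q.2)
    have hcard : Fintype.card (Fin d × Fin d) = d ^ 2 := by
      simp [sq]
    rw [mul_comm, ← hcard]
    refine le_trans ?_ h1
    have hmem : ∀ M : Matrix (Fin d) (Fin d) ℤ, (∀ i j, |M i j - C i j| ≤ (H : ℤ)) →
        (fun q : Fin d × Fin d => M q.1 q.2) ∈ bx (fun q => C q.1 q.2) H := by
      intro x hx
      unfold bx
      rw [Fintype.mem_piFinset]
      intro i
      rw [Finset.mem_Icc]
      have := abs_le.1 (hx i.1 i.2)
      constructor <;> linarith [this.1, this.2]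
    have heasy : ∀ M : Matrix (Fin d) (Fin d) ℤ,
        Pool.Agent.R851.SK.EasyB d r ((H : ℝ) ^ δ) (Real.log H ^ A) (fun q => M q.1 q.2) →
        Easy f d r ((H : ℝ) ^ δ) (Real.log H ^ A) M := by
      intro M hv w x hhom hw hx hwx
      obtain ⟨p, hp, hpY, hpM, hpv⟩ := hv w x hhom hw hx hwx
      refine ⟨fun n hn => ?_, ⟨p, hp, hpY, hpv, hpM⟩, fun z hz => ?_⟩
      · apply hpv n
        have h2 : Pool.Agent.TH838.SK.ev1 w
          (((Pool.Agent.R851.SK.mtB fun q => M q.1 q.2) ^ n).mulVec x) = 0 := hn
        rw [h2]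
        exact dvd_zero _
      · rw [hfe _ _ _ hz]
        exact ⟨p, Nat.le_floor hpY, hp, fun n => hpv n⟩
    have hfin := finite_sub (fun q : Fin d × Fin d => C q.1 q.2) H
      (fun v => ¬ Pool.Agent.R851.SK.EasyB d r ((H : ℝ) ^ δ) (Real.log H ^ A) v)
    have hle := Nat.card_le_card_of_injective
      (fun x : {M : Matrix (Fin d) (Fin d) ℤ // (∀ i j, |M i j - C i j| ≤ (H : ℤ)) ∧
          ¬ Easy f d r ((H : ℝ) ^ δ) (Real.log H ^ A) M} =>
        (⟨fun q => x.1 q.1 q.2, hmem x.1 x.2.1, fun h => x.2.2 (heasy x.1 h)⟩ :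
          {v : Fin d × Fin d → ℤ // v ∈ bx (fun q => C q.1 q.2) H ∧
            ¬ Pool.Agent.R851.SK.EasyB d r ((H : ℝ) ^ δ) (Real.log H ^ A) v}))
      (fun x y hxy => by
        have h3 := congrArg (fun z => z.1) hxy
        simp only at h3
        apply Subtype.ext
        ext i j
        exact congrFun h3 (i, j))
    exact_mod_cast hle

end Pool.Agent.R851.SK.RandomMatrices
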